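import Mathlib
import Pool.Agent.Helper8K9.CR.Gen

/-!
# Irreducibility from one complex reflection and one diagonalizable element
-/

set_option autoImplicit false
set_option linter.unusedSectionVars false

namespace Pool.Agent.Helper8K9.CY

open Module TensorProduct Polynomial
open Pool.Agent.H204R3.SP Pool.Agent.H204R3.GP Pool.Agent.W522.U Pool.Agent.TH118.CR

noncomputable section

section strong

variable {K X : Type} [Field K] [AddCommGroup X] [Module K X] [FiniteDimensional K X]
  {Γ : Type} [Group Γ] {R : Representation K Γ X}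

/-- A subspace stable under `f` is stable under the polynomials in `f`. -/
theorem aeval_mem {f : End K X} {W : Submodule K X} (h : ∀ u ∈ W, f u ∈ W) (p : K[X]) :
    ∀ u ∈ W, aeval f p u ∈ W := by
  induction p using Polynomial.induction_on' with
  | add p q hp hq =>
    intro u hu
    rw [map_add, LinearMap.add_apply]
    exact W.add_mem (hp u hu) (hq u hu)
  | monomial n a =>
    intro u hu
    have h1 : ∀ n : ℕ, (f ^ n) u ∈ W := by
      intro n
      induction n with
      | zero => exact hu
      | succ n ih =>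
        rw [pow_succ', End.mul_apply]
        exact h _ ih
    rw [aeval_monomial, ← Algebra.smul_def, LinearMap.smul_apply]
    exact W.smul_mem _ (h1 n)

theorem aeval_basis {I : Type} (b : Basis I K X) {f : End K X} {a : I → K}
    (hf : ∀ i, f (b i) = a i • b i) (p : K[X]) (i : I) : aeval f p (b i) = p.eval (a i) • b i :=
  End.aeval_apply_of_mem_apply_eq_smul (hf i)

/-- The eigenlines contained in a stable subspace. -/
theorem basis_mem {I : Type} [Fintype I] [DecidableEq I] (b : Basis I K X) {f : End K X}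
    {a : I → K} (hf : ∀ i, f (b i) = a i • b i) (ha : Function.Injective a) {W : Submodule K X}
    (h : ∀ u ∈ W, f u ∈ W) {x : X} (hx : x ∈ W) {i : I} (hi : b.repr x i ≠ 0) : b i ∈ W := by
  let p : K[X] := Lagrange.interpolate Finset.univ a (fun j => if j = i then 1 else 0)
  have h1 : ∀ j, aeval f p (b j) = (if j = i then (1 : K) else 0) • b j := by
    intro j
    rw [aeval_basis b hf]
    congr 1
    exact Lagrange.eval_interpolate_at_node _ ha.injOn (Finset.mem_univ j)
  have h2 : aeval f p x = b.repr x i • b i := by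
    conv_lhs => rw [← b.sum_repr x, map_sum]
    rw [Finset.sum_eq_single i]
    · rw [map_smul, h1, if_pos rfl, one_smul]
    · intro j _ hj
      rw [map_smul, h1, if_neg hj, zero_smul, smul_zero]
    · intro h
      exact absurd (Finset.mem_univ i) h
  have h3 := aeval_mem h p x hx
  rw [h2] at h3
  have h4 := W.smul_mem (b.repr x i)⁻¹ h3
  rwa [smul_smul, inv_mul_cancel₀ hi, one_smul] at h4

/-- A subspace stable under a power is stable. -/
theorem stable_of_pow {I : Type} [Fintype I] (b : Basis I K X) {f : End K X}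
    {a : I → K} (hf : ∀ i, f (b i) = a i • b i) {N : ℕ} (ha : Function.Injective fun i => a i ^ N)
    {W : Submodule K X} (h : ∀ u ∈ W, (f ^ N) u ∈ W) : ∀ u ∈ W, f u ∈ W := by
  classical
  let p : K[X] := Lagrange.interpolate Finset.univ (fun i => a i ^ N) a
  have hf2 : ∀ i, (f ^ N) (b i) = (a i ^ N) • b i := by
    intro i
    have := aeval_basis b hf (Polynomial.X ^ N) i
    rwa [map_pow, aeval_X, eval_pow, eval_X] at this
  have h1 : aeval (f ^ N) p = f := by
    refine b.ext fun i => ?_
    rw [aeval_basis b hf2, hf]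
    congr 1
    exact Lagrange.eval_interpolate_at_node _ ha.injOn (Finset.mem_univ i)
  intro u hu
  rw [← h1]
  exact aeval_mem h p u hu

/-- Irreducibility under all subgroups of finite index: the group contains an element `F` with an
eigenbasis and with eigenvalues different up to roots of unity, and a complex reflection `γ` such that
`F` and the root `d` of `γ` generate the space and no eigenvector of `F` is fixed by `γ`. -/
theorem irr_of_reflection {I : Type} [Fintype I] [DecidableEq I] (b : Basis I K X) (a : I → K)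
    (F γ : Γ) (hF : ∀ i, R F (b i) = a i • b i)
    (ha : ∀ N : ℕ, 0 < N → Function.Injective fun i => a i ^ N)
    {d : X} {φ : X →ₗ[K] K} {ε : K} (hφ : φ d = 1) (hε1 : ε ≠ 1) (hε2 : ε ≠ -1)
    (hγ : ∀ u, R γ u = u + ((ε - 1) * φ u) • d)
    (hd : ∀ W : Submodule K X, (∀ u ∈ W, R F u ∈ W) → d ∈ W → W = ⊤)
    (hb : ∀ i, φ (b i) ≠ 0) (W : Submodule K X) (hW : Pot R W) : W = ⊥ ∨ W = ⊤ := by
  by_cases h0 : W = ⊥
  · exact Or.inl h0
  right
  obtain ⟨Δ0, hΔ0, hst0⟩ := hW
  let Δ := Δ0.normalCore
  have hΔ : Δ.FiniteIndex := inferInstance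
  have hst : ∀ g ∈ Δ, ∀ u ∈ W, R g u ∈ W := fun g hg => hst0 g (Δ0.normalCore_le hg)
  obtain ⟨N, hN, -, hFN⟩ := Subgroup.exists_pow_mem_of_index_ne_zero hΔ.index_ne_zero F
  have hNpos : 0 < N := hN
  -- stable subspaces are stable under `F`
  have hFst : ∀ W' : Submodule K X, (∀ g ∈ Δ, ∀ u ∈ W', R g u ∈ W') → ∀ u ∈ W', R F u ∈ W' := by
    intro W' h'
    refine stable_of_pow b hF (ha N hNpos) fun u hu => ?_
    rw [← map_pow]
    exact h' _ hFN u hu
  -- translates
  have htr : ∀ (g : Γ) (W' : Submodule K X), (∀ h ∈ Δ, ∀ u ∈ W', R h u ∈ W') →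
      ∀ h ∈ Δ, ∀ u ∈ W'.map (R g), R h u ∈ W'.map (R g) := by
    intro g W' h' h hh u hu
    obtain ⟨w, hw, rfl⟩ := hu
    have h1 : g⁻¹ * h * g ∈ Δ := by
      have := (inferInstance : Δ.Normal).conj_mem h hh g⁻¹
      rwa [inv_inv] at this
    refine ⟨R (g⁻¹ * h * g) w, h' _ h1 w hw, ?_⟩
    rw [← End.mul_apply, ← map_mul, ← End.mul_apply, ← map_mul]
    congr 2
    group
  -- a minimal stable subspace
  let S : Set (Submodule K X) := {W' | W' ≠ ⊥ ∧ W' ≤ W ∧ ∀ g ∈ Δ, ∀ u ∈ W', R g u ∈ W'}
  have hS : S.Nonempty := ⟨W, h0, le_rfl, hst⟩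
  let W0 := (wellFounded_lt (α := Submodule K X)).min S hS
  obtain ⟨hW0, hW0W, hW0st⟩ : W0 ∈ S := (wellFounded_lt (α := Submodule K X)).min_mem S hS
  have hmin : ∀ W' : Submodule K X, W' ≠ ⊥ → W' ≤ W0 → (∀ g ∈ Δ, ∀ u ∈ W', R g u ∈ W') →
      W' = W0 := by
    intro W' h1 h2 h3
    by_contra hne
    exact (wellFounded_lt (α := Submodule K X)).not_lt_min S ⟨h1, h2.trans hW0W, h3⟩
      (lt_of_le_of_ne h2 hne)
  have ha1 : Function.Injective a := by
    have := ha 1 one_pos
    simpa using this
  obtain ⟨x, hx, hx0⟩ := Submodule.exists_mem_ne_zero_of_ne_bot hW0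
  obtain ⟨i, hi⟩ : ∃ i, b.repr x i ≠ 0 := by
    by_contra hcon
    push Not at hcon
    apply hx0
    rw [← b.sum_repr x]
    exact Finset.sum_eq_zero fun i _ => by rw [hcon i, zero_smul]
  have hbi : b i ∈ W0 := basis_mem b hF ha1 (hFst W0 hW0st) hx hi
  have hd0 : d ≠ 0 := by
    rintro rfl
    rw [map_zero] at hφ
    exact zero_ne_one hφ
  have hε0 : ε ≠ 0 := by
    rintro rfl
    apply Rne (R := R) γ hd0
    rw [hγ, hφ]
    module
  suffices hdW : d ∈ W0 by
    rw [eq_top_iff, ← hd W0 (hFst W0 hW0st) hdW]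
    exact hW0W
  -- the translate
  by_cases hcase : W0.map (R γ) = W0
  · have h1 : R γ (b i) ∈ W0 := by
      rw [← hcase]
      exact ⟨b i, hbi, rfl⟩
    rw [hγ] at h1
    have h2 := (W0.add_mem_iff_right hbi).1 h1
    have h3 : (ε - 1) * φ (b i) ≠ 0 := mul_ne_zero (sub_ne_zero.2 hε1) (hb i)
    have h4 := W0.smul_mem ((ε - 1) * φ (b i))⁻¹ h2
    rwa [smul_smul, inv_mul_cancel₀ h3, one_smul] at h4
  · exfalso
    have hinj : Function.Injective (R γ) := by
      intro u v huv
      rw [← Rinv (R := R) γ u, huv, Rinv]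
    have hcap : W0 ⊓ W0.map (R γ) = ⊥ := by
      by_contra hne
      have h1 := hmin (W0 ⊓ W0.map (R γ)) hne inf_le_left fun g hg u hu =>
        ⟨hW0st g hg u hu.1, htr γ W0 hW0st g hg u hu.2⟩
      apply hcase
      symm
      refine Submodule.eq_of_le_of_finrank_eq (inf_eq_left.1 h1) ?_
      exact (Submodule.equivMapOfInjective (R γ) hinj W0).finrank_eq
    -- the subspace is a line
    have hline : ∀ w ∈ W0, ∃ c : K, w = c • b i := by
      intro w hw
      refine ⟨φ w / φ (b i), ?_⟩
      have h1 : w - (φ w / φ (b i)) • b i ∈ W0 := W0.sub_mem hw (W0.smul_mem _ hbi)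
      have h2 : φ (w - (φ w / φ (b i)) • b i) = 0 := by
        rw [map_sub, map_smul, smul_eq_mul, div_mul_cancel₀ _ (hb i), sub_self]
      have h3 : w - (φ w / φ (b i)) • b i ∈ W0 ⊓ W0.map (R γ) := by
        refine ⟨h1, _, h1, ?_⟩
        rw [hγ, h2, mul_zero, zero_smul, add_zero]
      rw [hcap, Submodule.mem_bot] at h3
      exact sub_eq_zero.1 h3
    -- translates of the line are eigenlines
    have heig : ∀ g : Γ, ∃ (j : I) (t : K), t ≠ 0 ∧ R g (b i) = t • b j := by
      intro g
      have h1 : R g (b i) ∈ W0.map (R g) := ⟨b i, hbi, rfl⟩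
      have h2 : R g (b i) ≠ 0 := Rne g (b.ne_zero i)
      obtain ⟨j, hj⟩ : ∃ j, b.repr (R g (b i)) j ≠ 0 := by
        by_contra hcon
        push Not at hcon
        apply h2
        rw [← b.sum_repr (R g (b i))]
        exact Finset.sum_eq_zero fun i _ => by rw [hcon i, zero_smul]
      have h3 : b j ∈ W0.map (R g) :=
        basis_mem b hF ha1 (hFst _ (htr g W0 hW0st)) h1 hj
      obtain ⟨w, hw, hwj⟩ := h3
      obtain ⟨c, rfl⟩ := hline w hw
      rw [map_smul] at hwj
      have hc : c ≠ 0 := by
        rintro rfl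
        rw [zero_smul] at hwj
        exact b.ne_zero j hwj.symm
      refine ⟨j, c⁻¹, inv_ne_zero hc, ?_⟩
      rw [← hwj, smul_smul, inv_mul_cancel₀ hc, one_smul]
    obtain ⟨j, t, ht, hj⟩ := heig γ
    obtain ⟨l, t', ht', hl⟩ := heig (γ * γ)
    have hij : i ≠ j := by
      rintro rfl
      have h1 : b i ∈ W0 ⊓ W0.map (R γ) := by
        refine ⟨hbi, t⁻¹ • b i, W0.smul_mem _ hbi, ?_⟩
        rw [map_smul, hj, smul_smul, inv_mul_cancel₀ ht, one_smul]
      rw [hcap, Submodule.mem_bot] at h1
      exact b.ne_zero i h1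
    have h1 : R (γ * γ) (b i) = (-ε) • b i + ((1 + ε) * t) • b j := by
      have h2 : ((ε - 1) * φ (b i)) • d = t • b j - b i := by
        rw [← hj, hγ]
        abel
      have h3 : R γ d = ε • d := by
        rw [hγ, hφ]
        module
      rw [map_mul, End.mul_apply, hγ (b i), map_add, map_smul, h3, hγ (b i), smul_comm, h2]
      module
    rw [hl] at h1
    have h2 := congrArg (fun y => b.repr y i) h1
    have h3 := congrArg (fun y => b.repr y j) h1
    simp only [map_smul, map_add, Finsupp.smul_apply, Finsupp.add_apply, Basis.repr_self,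
      smul_eq_mul] at h2 h3
    rw [Finsupp.single_eq_same, Finsupp.single_eq_of_ne hij, mul_one, mul_zero, add_zero] at h2
    rw [Finsupp.single_eq_same, Finsupp.single_eq_of_ne hij.symm, mul_zero, zero_add, mul_one] at h3
    have hli : l = i := by
      by_contra hne
      rw [Finsupp.single_eq_of_ne (Ne.symm hne), mul_zero] at h2
      exact hε0 (neg_eq_zero.1 h2.symm)
    have hlj : l = j := by
      by_contra hne
      rw [Finsupp.single_eq_of_ne (Ne.symm hne), mul_zero] at h3
      rcases mul_eq_zero.1 h3.symm with h4 | h4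
      · apply hε2
        linear_combination h4
      · exact ht h4
    exact hij (hli.symm.trans hlj)

end strong

end

end Pool.Agent.Helper8K9.CY
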