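import Mathlib
import Pool.Agent.Helper8K9.CY.Irr

/-!
# Sums of strongly irreducible subspaces
-/

set_option autoImplicit false
set_option linter.unusedSectionVars false

namespace Pool.Agent.Helper8K9.CY

open Module TensorProduct Polynomial
open Pool.Agent.H204R3.SP Pool.Agent.H204R3.GP Pool.Agent.W522.U Pool.Agent.TH118.CR

noncomputable section

variable {K X : Type} [Field K] [AddCommGroup X] [Module K X] {Γ : Type} [Group Γ]

/-- The representation on a stable subspace. -/
def subR (R : Representation K Γ X) (U : Submodule K X) (h : ∀ g, ∀ u ∈ U, R g u ∈ U) :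
    Representation K Γ U where
  toFun g := (R g).restrict (h g)
  map_one' := by
    ext u
    simp
  map_mul' g g' := by
    ext u
    simp

theorem subR_apply {R : Representation K Γ X} {U : Submodule K X}
    (h : ∀ g, ∀ u ∈ U, R g u ∈ U) (g : Γ) (u : U) : ((subR R U h g u : U) : X) = R g u := rfl

/-- From irreducibility of the representation on a subspace. -/
theorem SI_of_sub {R : Representation K Γ X} {U : Submodule K X}
    (h : ∀ g, ∀ u ∈ U, R g u ∈ U) (hU : U ≠ ⊥)
    (hirr : ∀ W : Submodule K U, Pot (subR R U h) W → W = ⊥ ∨ W = ⊤) : SI R U := by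
  refine ⟨hU, ⟨⊤, inferInstance, fun g _ => h g⟩, fun W hWU hW => ?_⟩
  obtain ⟨Δ, hΔ, hst⟩ := hW
  rcases hirr (W.comap U.subtype) ⟨Δ, hΔ, fun g hg u hu => by
    rw [Submodule.mem_comap] at hu ⊢
    exact hst g hg _ hu⟩ with h1 | h1
  · left
    rw [eq_bot_iff]
    intro w hw
    have h2 : (⟨w, hWU hw⟩ : U) ∈ W.comap U.subtype := hw
    rw [h1, Submodule.mem_bot] at h2
    have h3 := congrArg Subtype.val h2
    exact h3
  · right
    refine le_antisymm hWU fun u hu => ?_
    have h2 : (⟨u, hu⟩ : U) ∈ W.comap U.subtype := by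
      rw [h1]
      trivial
    exact h2

/-- A sum of stable strongly irreducible subspaces is semisimple under all subgroups of finite
index. -/
theorem hasProj_of_SI {R : Representation K Γ X} {I : Type} [Fintype I]
    {U : I → Submodule K X} (hst : ∀ i, ∀ g, ∀ u ∈ U i, R g u ∈ U i) (hSI : ∀ i, SI R (U i))
    (hsup : ⨆ i, U i = ⊤) : HasProj R := by
  classical
  intro Δ hΔ W hW
  have key : ∀ s : Finset I, ∃ C : Submodule K X, (∀ g ∈ Δ, ∀ u ∈ C, R g u ∈ C) ∧ W ⊓ C = ⊥ ∧
      ∀ i ∈ s, U i ≤ W ⊔ C := by
    intro s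
    induction s using Finset.induction_on with
    | empty =>
      refine ⟨⊥, ?_, inf_bot_eq W, fun i hi => absurd hi (Finset.notMem_empty i)⟩
      intro g _ u hu
      rw [Submodule.mem_bot] at hu ⊢
      rw [hu, map_zero]
    | insert i s _ ih =>
      obtain ⟨C, hC, hCW, hs⟩ := ih
      by_cases hi : U i ≤ W ⊔ C
      · refine ⟨C, hC, hCW, fun j hj => ?_⟩
        rcases Finset.mem_insert.1 hj with rfl | hj
        · exact hi
        · exact hs j hj
      · have hWC : ∀ g ∈ Δ, ∀ u ∈ W ⊔ C, R g u ∈ W ⊔ C := by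
          intro g hg u hu
          obtain ⟨w, hw, c, hc, rfl⟩ := Submodule.mem_sup.1 hu
          rw [map_add]
          exact Submodule.add_mem _ (Submodule.mem_sup_left (hW g hg w hw))
            (Submodule.mem_sup_right (hC g hg c hc))
        have hbot : U i ⊓ (W ⊔ C) = ⊥ := by
          rcases (hSI i).2.2 (U i ⊓ (W ⊔ C)) inf_le_left
            ⟨Δ, hΔ, fun g hg u hu => ⟨hst i g u hu.1, hWC g hg u hu.2⟩⟩ with h1 | h1
          · exact h1
          · exact absurd (inf_eq_left.1 h1) hi
        refine ⟨C ⊔ U i, ?_, ?_, ?_⟩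
        · intro g hg u hu
          obtain ⟨c, hc, v, hv, rfl⟩ := Submodule.mem_sup.1 hu
          rw [map_add]
          exact Submodule.add_mem _ (Submodule.mem_sup_left (hC g hg c hc))
            (Submodule.mem_sup_right (hst i g v hv))
        · rw [eq_bot_iff]
          rintro x ⟨hx, hx'⟩
          obtain ⟨c, hc, v, hv, rfl⟩ := Submodule.mem_sup.1 hx'
          have h1 : v ∈ U i ⊓ (W ⊔ C) := by
            refine ⟨hv, ?_⟩
            have h2 : v = (c + v) - c := by abel
            rw [h2]
            exact Submodule.sub_mem _ (Submodule.mem_sup_left hx) (Submodule.mem_sup_right hc)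
          rw [hbot, Submodule.mem_bot] at h1
          rw [h1, add_zero] at hx ⊢
          have h3 : c ∈ W ⊓ C := ⟨hx, hc⟩
          rwa [hCW] at h3
        · intro j hj
          rcases Finset.mem_insert.1 hj with rfl | hj
          · exact le_sup_of_le_right le_sup_right
          · exact (hs j hj).trans (sup_le_sup_left le_sup_left W)
  obtain ⟨C, hC, hCW, hs⟩ := key Finset.univ
  have htop : W ⊔ C = ⊤ := by
    rw [eq_top_iff, ← hsup]
    exact iSup_le fun i => hs i (Finset.mem_univ i)
  have hcompl : IsCompl W C := ⟨disjoint_iff.2 hCW, codisjoint_iff.2 htop⟩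
  refine ⟨W.subtype.comp (W.projectionOnto C hcompl), fun v => SetLike.coe_mem _,
    fun u hu => ?_, fun g hg v => ?_⟩
  · rw [LinearMap.comp_apply]
    have := Submodule.projectionOnto_apply_left hcompl ⟨u, hu⟩
    rw [this]
    rfl
  · have hv : v ∈ W ⊔ C := by
      rw [htop]
      trivial
    obtain ⟨w, hw, c, hc, rfl⟩ := Submodule.mem_sup.1 hv
    have h1 : ∀ (w : X) (hw : w ∈ W) (c : X) (hc : c ∈ C),
        (W.subtype.comp (W.projectionOnto C hcompl)) (w + c) = w := by
      intro w hw c hc
      rw [LinearMap.comp_apply, map_add]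
      have h2 := Submodule.projectionOnto_apply_left hcompl ⟨w, hw⟩
      have h3 := Submodule.projectionOnto_apply_right hcompl ⟨c, hc⟩
      change W.subtype (W.projectionOnto C hcompl w + W.projectionOnto C hcompl c) = w
      rw [h2, h3, add_zero]
      rfl
    rw [map_add, h1 _ (hW g hg w hw) _ (hC g hg c hc), h1 w hw c hc]

end

end Pool.Agent.Helper8K9.CY
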