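import Mathlib
import Pool.Agent.Helper8K9.CY.Sum
import Pool.Agent.H204R3.GP.MT

/-!
# Commuting operators and forms in an odd number of variables
-/

set_option autoImplicit false
set_option linter.unusedSectionVars false

namespace Pool.Agent.Helper8K9.CY

open Module TensorProduct Polynomial
open Pool.Agent.H204R3.SP Pool.Agent.H204R3.GP Pool.Agent.W522.U Pool.Agent.TH118.CR

noncomputable section

variable {K X : Type} [Field K] [AddCommGroup X] [Module K X] [FiniteDimensional K X]
  {Γ : Type} [Group Γ] {R : Representation K Γ X} {I : Type} [Fintype I]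
  {E : I → Submodule K X}

/-- Operators commuting with a subgroup of finite index are scalars on the summands, if these are
not isomorphic. -/
theorem comm_scalar_of_sep [IsAlgClosed K] (hst : ∀ i, ∀ g, ∀ u ∈ E i, R g u ∈ E i)
    (hSI : ∀ i, SI R (E i)) (hsup : ⨆ i, E i = ⊤)
    (hsep : ∀ i j, Tw R (fun _ => 1) (E i) (E j) → i = j) {Δ : Subgroup Γ} (hΔ : Δ.FiniteIndex)
    (P : End K X) (hP : ∀ s ∈ Δ, ∀ x, P (R s x) = R s (P x)) (i : I) :
    ∃ c : K, ∀ u ∈ E i, P u = c • u := by
  classical
  have hpr := hasProj_of_SI hst hSI hsup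
  choose T hT1 hT2 hT3 using fun j => hpr Δ hΔ (E j) fun g _ => hst j g
  -- a commuting operator maps no summand to another one
  have hzero : ∀ (S : End K X), (∀ s ∈ Δ, ∀ x, S (R s x) = R s (S x)) → ∀ i j, i ≠ j →
      ∀ u ∈ E i, T j (S u) = 0 := by
    intro S hS i j hij
    by_contra hcon
    push Not at hcon
    obtain ⟨u, hu, hu0⟩ := hcon
    refine hij (hsep i j ⟨Δ, hΔ, (T j).comp S, fun v _ => hT1 j _, ⟨u, hu, hu0⟩, ?_⟩)
    intro g hg v _
    rw [LinearMap.comp_apply, LinearMap.comp_apply, hS g hg, hT3 j g hg, one_smul]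
  have hsum : ∀ x, ∑ j, T j x = x := by
    intro x
    have hx : x ∈ ⨆ i, E i := by
      rw [hsup]
      trivial
    refine Submodule.iSup_induction E (motive := fun x => ∑ j, T j x = x) hx
      (fun i u hu => ?_) ?_ (fun x y hx hy => ?_)
    · rw [Finset.sum_eq_single i]
      · exact hT2 i u hu
      · intro j _ hj
        exact hzero 1 (fun s _ x => rfl) i j (Ne.symm hj) u hu
      · intro h
        exact absurd (Finset.mem_univ i) h
    · simp
    · simp only [map_add, Finset.sum_add_distrib, hx, hy]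
  have hPst : ∀ u ∈ E i, P u ∈ E i := by
    intro u hu
    rw [← hsum (P u), Finset.sum_eq_single i]
    · exact hT1 i _
    · intro j _ hj
      exact hzero P hP i j (Ne.symm hj) u hu
    · intro h
      exact absurd (Finset.mem_univ i) h
  -- Schur's lemma
  have hnt : Nontrivial (E i) := Submodule.nontrivial_iff_ne_bot.2 (hSI i).1
  obtain ⟨c, hc⟩ := Module.End.exists_eigenvalue (P.restrict hPst)
  obtain ⟨v, hv⟩ := hc.exists_hasEigenvector
  have hv1 : P (v : X) = c • (v : X) := congrArg Subtype.val hv.apply_eq_smul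
  let W : Submodule K X := E i ⊓ End.eigenspace P c
  have hW : Pot R W := by
    refine ⟨Δ, hΔ, fun g hg u hu => ⟨hst i g u hu.1, ?_⟩⟩
    have h1 := End.mem_eigenspace_iff.1 hu.2
    change R g u ∈ End.eigenspace P c
    rw [End.mem_eigenspace_iff, hP g hg, h1, map_smul]
  rcases (hSI i).2.2 W inf_le_left hW with h1 | h1
  · exfalso
    have h2 : (v : X) ∈ W := ⟨v.2, End.mem_eigenspace_iff.2 hv1⟩
    rw [h1, Submodule.mem_bot] at h2
    exact hv.2 (Subtype.ext h2)
  · refine ⟨c, fun u hu => ?_⟩
    rw [← h1] at hu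
    exact End.mem_eigenspace_iff.1 hu.2

/-- Bilinear forms with multiplier `χ` are invariant under operators that act on dual summands by
inverse scalars. -/
theorem tate2_inv {χ : Γ →* K} (hSI : ∀ i, SI R (E i)) (hsup : ⨆ i, E i = ⊤)
    (hsep : ∀ i j, Tw R (fun _ => 1) (E i) (E j) → i = j) {nu : I → I}
    (hdual : ∀ i, Du R χ (E i) (E (nu i))) {g : End K X} {c : I → K}
    (hg : ∀ i, ∀ u ∈ E i, g u = c i • u) (hc : ∀ i, c i * c (nu i) = 1)
    {B : X →ₗ[K] X →ₗ[K] K} (hB : IsTate2 R χ B) (u v : X) : B (g u) (g v) = B u v := by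
  have hx : ∀ x : X, x ∈ ⨆ i, E i := by
    intro x
    rw [hsup]
    trivial
  refine Submodule.iSup_induction E (motive := fun u => B (g u) (g v) = B u v) (hx u)
    (fun i u hu => ?_) ?_ (fun x y hx hy => ?_)
  · refine Submodule.iSup_induction E (motive := fun v => B (g u) (g v) = B u v) (hx v)
      (fun j v hv => ?_) ?_ (fun x y hx hy => ?_)
    · rw [hg i u hu, hg j v hv, map_smul, map_smul, LinearMap.smul_apply, smul_eq_mul, smul_eq_mul]
      by_cases h0 : B u v = 0
      · rw [h0, mul_zero, mul_zero]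
      · obtain ⟨Δ, hΔ, h⟩ := hB
        have h1 : Du R χ (E i) (E j) := ⟨Δ, hΔ, B, ⟨u, hu, v, hv, h0⟩,
          fun g hg u _ v _ => h g hg u v⟩
        have h2 : nu i = j := hsep _ _ ((hdual i).tw (hSI i) (hSI (nu i)) (hSI j) h1)
        rw [← h2, ← mul_assoc, mul_comm (c (nu i)), hc, one_mul]
    · simp only [map_zero]
    · simp only [map_add, hx, hy]
  · simp only [map_zero, LinearMap.zero_apply]
  · simp only [map_add, LinearMap.add_apply, hx, hy]

/-- The square of a multilinear form. -/
def sq {n : ℕ} (φ : MultilinearMap K (fun _ : Fin n => X) K) :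
    MultilinearMap K (fun _ : Fin n × Fin 2 => X) K :=
  ((LinearMap.mul' K K).compMultilinearMap (φ.domCoprod φ)).domDomCongr
    ((Equiv.boolProdEquivSum (Fin n)).symm.trans
      (((Equiv.refl _).prodCongr (Equiv.refl _)).trans
        ((Equiv.prodComm Bool (Fin n)).trans ((Equiv.refl _).prodCongr finTwoEquiv.symm))))

theorem sq_apply {n : ℕ} (φ : MultilinearMap K (fun _ : Fin n => X) K)
    (v : Fin n × Fin 2 → X) : sq φ v = φ (fun i => v (i, 0)) * φ (fun i => v (i, 1)) := rfl

theorem sq_tate {χ : Γ →* K} {n : ℕ} {φ : MultilinearMap K (fun _ : Fin n => X) K}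
    {ψ : Γ → K} {Δ : Subgroup Γ} (hΔ : Δ.FiniteIndex) (hψ : ∀ s ∈ Δ, ψ s ^ 2 = χ s)
    (hφ : ∀ s ∈ Δ, ∀ v, φ (fun k => R s (v k)) = ψ s ^ n * φ v) : IsTate R χ n (sq φ) := by
  refine ⟨Δ, hΔ, fun s hs v => ?_⟩
  rw [sq_apply, sq_apply, hφ s hs, hφ s hs, ← hψ s hs, ← pow_mul]
  ring

/-- Forms in an odd number of variables vanish. -/
theorem odd_vanish [CharZero K] {χ : Γ →* K} (hSI : ∀ i, SI R (E i)) (hsup : ⨆ i, E i = ⊤)
    (hsep : ∀ i j, Tw R (fun _ => 1) (E i) (E j) → i = j) {nu : I → I}
    (hdual : ∀ i, Du R χ (E i) (E (nu i))) {g : End K X} {H : I → Bool}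
    (hg : ∀ i, ∀ u ∈ E i, g u = (if H i then (2 : K) else 2⁻¹) • u)
    (hH : ∀ i, H (nu i) = !(H i))
    (hall : ∀ (n : ℕ) (φ : MultilinearMap K (fun _ : Fin n × Fin 2 => X) K), IsTate R χ n φ →
      φ ∈ Submodule.span K (PT R χ n))
    {n : ℕ} (hn : Odd n) {φ : MultilinearMap K (fun _ : Fin n => X) K}
    {ψ : Γ → K} {Δ : Subgroup Γ} (hΔ : Δ.FiniteIndex) (hψ : ∀ s ∈ Δ, ψ s ^ 2 = χ s)
    (hφ : ∀ s ∈ Δ, ∀ v, φ (fun k => R s (v k)) = ψ s ^ n * φ v) : φ = 0 := by
  classical
  have hc : ∀ i, (if H i then (2 : K) else 2⁻¹) * (if H (nu i) then (2 : K) else 2⁻¹) = 1 := by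
    intro i
    rw [hH]
    cases H i <;> simp
  have hinv : ∀ Φ ∈ Submodule.span K (PT R χ n), ∀ v : Fin n × Fin 2 → X,
      Φ (fun k => g (v k)) = Φ v := by
    intro Φ hΦ v
    induction hΦ using Submodule.span_induction with
    | mem Φ hΦ =>
      obtain ⟨σ, B, hB, rfl⟩ := hΦ
      rw [mmG_apply, mmG_apply]
      exact Finset.prod_congr rfl fun l _ => tate2_inv hSI hsup hsep hdual hg hc (hB l) _ _
    | zero => rfl
    | add x y _ _ hx hy => rw [_root_.add_apply, _root_.add_apply, hx, hy]
    | smul c x _ hx => rw [_root_.smul_apply, _root_.smul_apply, hx]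
  have hsq := hall n _ (sq_tate hΔ hψ hφ)
  have h1 : ∀ v : Fin n → X, φ (fun i => g (v i)) ^ 2 = φ v ^ 2 := by
    intro v
    have h2 := hinv _ hsq (fun k => v k.1)
    rw [sq_apply, sq_apply] at h2
    rw [pow_two, pow_two]
    exact h2
  -- homogeneous vectors
  have h2 : ∀ (t : Fin n → I) (v : Fin n → X), (∀ k, v k ∈ E (t k)) → φ v = 0 := by
    intro t v hv
    have h3 := h1 v
    have h4 : (fun i => g (v i)) = fun i => (if H (t i) then (2 : K) else 2⁻¹) • v i :=
      funext fun i => hg _ _ (hv i)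
    rw [h4, φ.map_smul_univ, smul_eq_mul, mul_pow] at h3
    have h5 : ((∏ i, (if H (t i) then (2 : K) else 2⁻¹)) ^ 2 - 1) * φ v ^ 2 = 0 := by
      rw [sub_mul, h3, one_mul, sub_self]
    rcases mul_eq_zero.1 h5 with h6 | h6
    · exfalso
      have h7 : (∏ i, (if H (t i) then (2 : K) else 2⁻¹)) ^ 2 = 1 := sub_eq_zero.1 h6
      have h8 : ∏ i, (if H (t i) then (2 : K) else 2⁻¹) =
          2 ^ (Finset.univ.filter fun i => H (t i) = true).card *
            (2⁻¹) ^ (Finset.univ.filter fun i => ¬ H (t i) = true).card := by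
        rw [Finset.prod_ite, Finset.prod_const, Finset.prod_const]
      have hcard := Finset.card_filter_add_card_filter_not (s := (Finset.univ : Finset (Fin n)))
        (fun i => H (t i) = true)
      rw [Finset.card_univ, Fintype.card_fin] at hcard
      set a := (Finset.univ.filter fun i => H (t i) = true).card
      set b := (Finset.univ.filter fun i => ¬ H (t i) = true).card
      rw [h8, mul_pow, inv_pow, inv_pow, ← pow_mul, ← pow_mul,
        mul_inv_eq_one₀ (pow_ne_zero _ two_ne_zero)] at h7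
      have h9 : (2 : ℕ) ^ (a * 2) = 2 ^ (b * 2) := by exact_mod_cast h7
      have h10 := Nat.pow_right_injective (le_refl 2) h9
      obtain ⟨k, hk⟩ := hn
      omega
    · exact pow_eq_zero_iff (two_ne_zero) |>.1 h6
  -- all vectors
  ext v
  rw [_root_.zero_apply]
  have key : ∀ (s : Finset (Fin n)) (v : Fin n → X) (t : Fin n → I),
      (∀ k ∉ s, v k ∈ E (t k)) → φ v = 0 := by
    intro s
    induction s using Finset.induction_on with
    | empty => intro v t hv; exact h2 t v fun k => hv k (Finset.notMem_empty k)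
    | insert a s ha ih =>
      intro v t hv
      have h3 : ∀ x : X, φ (Function.update v a x) = 0 := by
        intro x
        have hx : x ∈ ⨆ i, E i := by
          rw [hsup]
          trivial
        refine Submodule.iSup_induction E (motive := fun x => φ (Function.update v a x) = 0) hx
          (fun i u hu => ?_) ?_ (fun x y hx hy => ?_)
        · refine ih _ (Function.update t a i) fun k hk => ?_
          by_cases hka : k = a
          · subst hka
            rw [Function.update_self, Function.update_self]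
            exact hu
          · rw [Function.update_of_ne hka, Function.update_of_ne hka]
            refine hv k ?_
            rw [Finset.mem_insert, not_or]
            exact ⟨hka, hk⟩
        · exact φ.map_coord_zero a (Function.update_self _ _ _)
        · rw [φ.map_update_add, hx, hy, add_zero]
      have h4 := h3 (v a)
      rwa [Function.update_eq_self] at h4
  by_cases hne : Nonempty I
  · obtain ⟨i0⟩ := hne
    exact key Finset.univ v (fun _ => i0) fun k hk => absurd (Finset.mem_univ k) hk
  · -- the space is zero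
    rw [not_nonempty_iff] at hne
    obtain ⟨k, hk⟩ := hn
    have hX : ∀ x : X, x = 0 := by
      intro x
      have hx : x ∈ ⨆ i, E i := by
        rw [hsup]
        trivial
      rw [iSup_of_empty] at hx
      exact (Submodule.mem_bot K).1 hx
    exact φ.map_coord_zero (⟨0, by omega⟩ : Fin n) (hX _)

end

end Pool.Agent.Helper8K9.CY
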