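import Mathlib
import Pool.Agent.Helper8K9.CY.Comm

/-!
# The eigenspaces of `δ` are strongly irreducible
-/

set_option autoImplicit false
set_option linter.unusedSectionVars false

namespace Pool.Agent.Helper8K9.CY

open Module TensorProduct Polynomial
open Pool.Agent.H204R3.SP Pool.Agent.H204R3.GP Pool.Agent.W522.U Pool.Agent.TH118.CR
open Pool.Agent.Helper8K9.CR

noncomputable section

variable {k V : Type} [Field k] [CharZero k] [AddCommGroup V] [Module k V]
  [FiniteDimensional k V] (Ω : Type) [Field Ω] [CharZero Ω] [Algebra k Ω]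
  {Γ : Type} [Group Γ] (ρ : Representation k Γ V) (δ : End k V) {m : ℕ} [NeZero m]

/-- The operator `g` is a complex reflection over `k(δ)` with the root `d`: it maps `v` to the sum of
`v` and an element of `k(δ) d`, where `d` generates a free module of rank one over `k[T] / Φ_m(T)`,
`T` acting as `δ`, and `d` to `± δ ^ a d`, `a` prime to `m`. -/
def IsReflectionAt (m : ℕ) (δ g : End k V) (d : V) : Prop :=
  ∃ (a : ℕ) (s : k), a.Coprime m ∧ (s = 1 ∨ s = -1) ∧
    LinearIndependent k (fun i : Fin (Nat.totient m) => (δ ^ (i : ℕ)) d) ∧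
    (∀ v, g v - v ∈ Submodule.span k (Set.range fun i : Fin (Nat.totient m) => (δ ^ (i : ℕ)) d)) ∧
    g d = s • (δ ^ a) d

/-- The component of the root. -/
def rt (m : ℕ) [NeZero m] (δ : End k V) (d : V) (z : Ω) : Ω ⊗[k] V :=
  aeval (δ.baseChange Ω) (ez Ω m z) ((1 : Ω) ⊗ₜ[k] d)

variable {Ω} {ρ δ}

/-- A complex reflection over `k(δ)` acts on all eigenspaces of `δ` as a complex reflection. -/
theorem reflects_at (hm : 3 ≤ m) (hδ : aeval δ (cyclotomic m k) = 0)
    (hc : ∀ s, ρ s * δ = δ * ρ s) {γ : Γ} {d : V} (hγ : IsReflectionAt m δ (ρ γ) d) :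
    ∃ (a : ℕ) (s : Ω), a.Coprime m ∧ (s = 1 ∨ s = -1) ∧
      ∀ z : Ω, IsPrimitiveRoot z m → ∃ φ : Ω ⊗[k] V →ₗ[Ω] Ω, rt Ω m δ d z ∈ Eg Ω δ z ∧
        φ (rt Ω m δ d z) = 1 ∧ ∀ u ∈ Eg Ω δ z,
          bcr ρ Ω γ u = (1 : Ω) • (u + ((s * z ^ a - 1) * φ u) • rt Ω m δ d z) := by
  classical
  obtain ⟨a, s, ha, hs, hli, hsp, hgd⟩ := hγ
  have hs' : (algebraMap k Ω s) = 1 ∨ (algebraMap k Ω s) = -1 := by
    rcases hs with rfl | rfl
    · left; rw [map_one]
    · right; rw [map_neg, map_one]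
  refine ⟨a, algebraMap k Ω s, ha, hs', fun z hz => ?_⟩
  set ε : Ω := algebraMap k Ω s * z ^ a with hε
  have hε1 : ε - 1 ≠ 0 := sub_ne_zero.2 (root_ne hm hz ha hs').1
  set D : Ω ⊗[k] V := (1 : Ω) ⊗ₜ[k] d with hD
  set dz : Ω ⊗[k] V := aeval (δ.baseChange Ω) (ez Ω m z) D with hdz
  have hdm : dz ∈ Eg Ω δ z := ez_mem hδ hz D
  have hd0 : dz ≠ 0 := dz_ne hz hli
  have hcomm : ∀ p : Polynomial Ω, ∀ x, (ρ γ).baseChange Ω (aeval (δ.baseChange Ω) p x) =
      aeval (δ.baseChange Ω) p ((ρ γ).baseChange Ω x) := by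
    intro p x
    have h1 : Commute ((ρ γ).baseChange Ω) (δ.baseChange Ω) := by
      change (ρ γ).baseChange Ω ∘ₗ δ.baseChange Ω = δ.baseChange Ω ∘ₗ (ρ γ).baseChange Ω
      rw [← LinearMap.baseChange_comp, ← LinearMap.baseChange_comp]
      congr 1
      exact hc γ
    have h2 : Commute ((ρ γ).baseChange Ω) (aeval (δ.baseChange Ω) p) := by
      induction p using Polynomial.induction_on' with
      | add p q hp hq =>
        rw [map_add]
        exact hp.add_right hq
      | monomial n c =>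
        rw [aeval_monomial]
        have h5 : Commute ((ρ γ).baseChange Ω) (algebraMap Ω (End Ω (Ω ⊗[k] V)) c) :=
          (Algebra.commutes c ((ρ γ).baseChange Ω)).symm
        exact h5.mul_right (h1.pow_right n)
    exact congrArg (fun f : End Ω (Ω ⊗[k] V) => f x) h2.eq
  -- the eigenvector
  have hgdz : (ρ γ).baseChange Ω dz = ε • dz := by
    rw [hdz, hcomm]
    have h1 : (ρ γ).baseChange Ω D = algebraMap k Ω s • ((δ.baseChange Ω) ^ a) D := by
      rw [hD, LinearMap.baseChange_tmul, hgd, dl_pow, algebraMap_smul, tmul_smul]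
    rw [h1, map_smul]
    have h2 : aeval (δ.baseChange Ω) (ez Ω m z) (((δ.baseChange Ω) ^ a) D) =
        ((δ.baseChange Ω) ^ a) dz := by
      rw [hdz, ← End.mul_apply, ← End.mul_apply]
      congr 1
      have h3 := (Commute.refl (δ.baseChange Ω))
      have h4 : Commute (aeval (δ.baseChange Ω) (ez Ω m z)) (aeval (δ.baseChange Ω)
        (Polynomial.X ^ a : Polynomial Ω)) := by
        change _ * _ = _ * _
        rw [← map_mul, ← map_mul, mul_comm]
      rw [map_pow, aeval_X] at h4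
      exact h4.eq
    rw [h2, Eg_pow hdm, hε, mul_smul]
  -- differences
  have hdiff : ∀ u ∈ Eg Ω δ z, ∃ c : Ω, (ρ γ).baseChange Ω u - u = c • dz := by
    intro u hu
    have h1 : ∀ x ∈ Submodule.span Ω ((fun v => (1 : Ω) ⊗ₜ[k] v) ''
        (Submodule.span k (Set.range fun i : Fin (Nat.totient m) => (δ ^ (i : ℕ)) d) : Set V)),
        ∃ c : Ω, aeval (δ.baseChange Ω) (ez Ω m z) x = c • dz := by
      intro x hx
      induction hx using Submodule.span_induction with
      | mem x hx =>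
        obtain ⟨v, hv, rfl⟩ := hx
        change v ∈ Submodule.span k _ at hv
        induction hv using Submodule.span_induction with
        | mem v hv =>
          obtain ⟨i, rfl⟩ := hv
          refine ⟨z ^ (i : ℕ), ?_⟩
          change aeval (δ.baseChange Ω) (ez Ω m z) ((1 : Ω) ⊗ₜ[k] (δ ^ (i : ℕ)) d) = _
          rw [← dl_pow, ← Eg_pow hdm, hdz, ← End.mul_apply, ← End.mul_apply]
          congr 1
          have h4 : Commute (aeval (δ.baseChange Ω) (ez Ω m z)) (aeval (δ.baseChange Ω)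
            (Polynomial.X ^ (i : ℕ) : Polynomial Ω)) := by
            change _ * _ = _ * _
            rw [← map_mul, ← map_mul, mul_comm]
          rw [map_pow, aeval_X] at h4
          exact h4.eq
        | zero => exact ⟨0, by simp⟩
        | add v w _ _ hv hw =>
          obtain ⟨c, hc⟩ := hv
          obtain ⟨c', hc'⟩ := hw
          refine ⟨c + c', ?_⟩
          change aeval (δ.baseChange Ω) (ez Ω m z) ((1 : Ω) ⊗ₜ[k] (v + w)) = _
          rw [tmul_add, map_add]
          rw [show aeval (δ.baseChange Ω) (ez Ω m z) ((1 : Ω) ⊗ₜ[k] v) = c • dz from hc,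
            show aeval (δ.baseChange Ω) (ez Ω m z) ((1 : Ω) ⊗ₜ[k] w) = c' • dz from hc', add_smul]
        | smul b v _ hv =>
          obtain ⟨c, hc⟩ := hv
          refine ⟨algebraMap k Ω b * c, ?_⟩
          change aeval (δ.baseChange Ω) (ez Ω m z) ((1 : Ω) ⊗ₜ[k] (b • v)) = _
          rw [tmul_smul, ← algebraMap_smul Ω b, map_smul]
          rw [show aeval (δ.baseChange Ω) (ez Ω m z) ((1 : Ω) ⊗ₜ[k] v) = c • dz from hc, mul_smul]
      | zero => exact ⟨0, by simp⟩
      | add x y _ _ hx hy =>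
        obtain ⟨c, hc⟩ := hx
        obtain ⟨c', hc'⟩ := hy
        exact ⟨c + c', by rw [map_add, hc, hc', add_smul]⟩
      | smul b x _ hx =>
        obtain ⟨c, hc⟩ := hx
        exact ⟨b * c, by rw [map_smul, hc, mul_smul]⟩
    obtain ⟨c, hcx⟩ := h1 _ (diff_mem (Ω := Ω) hsp u)
    have hst : (ρ γ).baseChange Ω u ∈ Eg Ω δ z := Eg_stable hc z γ u hu
    have h2 := aeval_on (ez Ω m z) ((Eg Ω δ z).sub_mem hst hu)
    rw [hcx] at h2
    refine ⟨((ez Ω m z).eval z)⁻¹ * c, ?_⟩
    rw [mul_smul, h2, smul_smul, inv_mul_cancel₀ ez_eval, one_smul]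
  obtain ⟨ψ, hψ⟩ := exists_dual_one (K := Ω) hd0
  change ∃ φ : Ω ⊗[k] V →ₗ[Ω] Ω, dz ∈ Eg Ω δ z ∧ φ dz = 1 ∧ ∀ u ∈ Eg Ω δ z,
    bcr ρ Ω γ u = (1 : Ω) • (u + ((ε - 1) * φ u) • dz)
  refine ⟨(ε - 1)⁻¹ • ψ.comp ((ρ γ).baseChange Ω - 1), hdm, ?_, fun u hu => ?_⟩
  · rw [LinearMap.smul_apply, LinearMap.comp_apply, LinearMap.sub_apply, End.one_apply, hgdz]
    rw [smul_sub_self ε dz, map_smul, hψ, smul_eq_mul, smul_eq_mul, mul_one, inv_mul_cancel₀ hε1]
  · obtain ⟨c, hcx⟩ := hdiff u hu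
    rw [LinearMap.smul_apply, LinearMap.comp_apply, LinearMap.sub_apply, End.one_apply, hcx,
      map_smul, hψ, smul_eq_mul, smul_eq_mul, mul_one, ← mul_assoc, mul_inv_cancel₀ hε1, one_mul,
      one_smul, ← hcx]
    change (ρ γ).baseChange Ω u = _
    abel


end

end Pool.Agent.Helper8K9.CY
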