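import Mathlib
import Pool.Agent.Helper8K9.CY.Eig

/-!
# The eigenspaces of `δ` are strongly irreducible
-/

set_option autoImplicit false
set_option linter.unusedSectionVars false

namespace Pool.Agent.Helper8K9.CY

open Module TensorProduct Polynomial
open Pool.Agent.H204R3.SP Pool.Agent.H204R3.GP Pool.Agent.W522.U Pool.Agent.TH118.CR
open Pool.Agent.Helper8K9.CR

noncomputable section

section lin

variable {K X : Type} [Field K] [AddCommGroup X] [Module K X]

/-- An eigenbasis for an operator with separable characteristic polynomial. -/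
theorem exists_simple_basis [IsAlgClosed K] [FiniteDimensional K X] (f : End K X)
    (hsep : f.charpoly.Separable) :
    ∃ (b : Basis (Fin (finrank K X)) K X) (a : Fin (finrank K X) → K),
      (∀ i, f (b i) = a i • b i) ∧ Function.Injective a ∧ ∀ i, f.charpoly.IsRoot (a i) := by
  classical
  have h1 : ⨆ a : K, End.eigenspace f a = ⊤ := by
    rw [eq_top_iff]
    intro u _
    set p := f.charpoly with hp
    have hmon : p.Monic := LinearMap.charpoly_monic _
    have hspl : p.Splits := IsAlgClosed.splits p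
    have h2 : p = ∏ a ∈ p.roots.toFinset, (Polynomial.X - C a) := by
      conv_lhs => rw [hspl.eq_prod_roots_of_monic hmon]
      rw [Finset.prod_multiset_map_count]
      refine Finset.prod_congr rfl fun a ha => ?_
      rw [Multiset.count_eq_one_of_mem (nodup_roots hsep) (Multiset.mem_toFinset.1 ha), pow_one]
    have h3 : aeval f p u = 0 := by
      rw [LinearMap.aeval_self_charpoly, LinearMap.zero_apply]
    rw [h2] at h3
    have h4 := mem_iSup_eigenspace f _ u h3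
    refine (iSup₂_le fun a _ => ?_ : (⨆ a ∈ p.roots.toFinset, End.eigenspace f a) ≤ _) h4
    exact le_iSup (fun a => End.eigenspace f a) a
  obtain ⟨b, hb⟩ := exists_eigenbasis f h1
  choose a ha using hb
  refine ⟨b, a, ha, ?_, fun i => ?_⟩
  · have h2 : LinearMap.toMatrix b b f = Matrix.diagonal a := by
      ext i j
      rw [LinearMap.toMatrix_apply, ha, map_smul, Finsupp.smul_apply, Basis.repr_self, smul_eq_mul,
        Matrix.diagonal_apply]
      by_cases hij : i = j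
      · subst hij
        rw [Finsupp.single_eq_same, mul_one, if_pos rfl]
      · rw [Finsupp.single_eq_of_ne hij, mul_zero, if_neg hij]
    have h3 := LinearMap.charpoly_toMatrix f b
    rw [h2, Matrix.charpoly_diagonal] at h3
    rw [← h3] at hsep
    exact separable_prod_X_sub_C_iff.1 hsep
  · refine (End.hasEigenvalue_iff_isRoot_charpoly f (a i)).1 ?_
    exact End.hasEigenvalue_of_hasEigenvector ⟨End.mem_eigenspace_iff.2 (ha i), b.ne_zero i⟩

/-- An eigenbasis of a stable subspace. -/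
theorem exists_simple_basis_on [IsAlgClosed K] [FiniteDimensional K X] (f : End K X)
    (U : Submodule K X) (h : ∀ u ∈ U, f u ∈ U) (hsep : (charpolyOn f U h).Separable) :
    ∃ (n : ℕ) (b : Basis (Fin n) K U) (a : Fin n → K),
      (∀ i, f (b i : X) = a i • (b i : X)) ∧ Function.Injective a ∧
        ∀ i, (charpolyOn f U h).IsRoot (a i) := by
  obtain ⟨b, a, h1, h2, h3⟩ := exists_simple_basis (f.restrict h) hsep
  exact ⟨_, b, a, fun i => congrArg Subtype.val (h1 i), h2, h3⟩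

/-- Nondegeneracy on the other side. -/
theorem nondeg_left [FiniteDimensional K X] (B : X →ₗ[K] X →ₗ[K] K)
    (h : ∀ u, (∀ v, B v u = 0) → u = 0) : ∀ u, (∀ v, B u v = 0) → u = 0 := by
  intro u hu
  have hinj : Function.Injective B.flip := by
    rw [injective_iff_map_eq_zero]
    intro v hv
    refine h v fun w => ?_
    exact congrArg (fun f : Dual K X => f w) hv
  have hsurj : Function.Surjective B.flip :=
    (LinearMap.injective_iff_surjective_of_finrank_eq_finrank (Subspace.dual_finrank_eq).symm).1 hinj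
  rw [← Module.forall_dual_apply_eq_zero_iff K]
  intro f
  obtain ⟨v, rfl⟩ := hsurj f
  exact hu v

/-- The multiplier of a complex reflection is trivial. -/
theorem mult_one {U U' : Submodule K X} [FiniteDimensional K X] (h3 : 3 ≤ finrank K U')
    (B : X →ₗ[K] X →ₗ[K] K) (hB : ∀ w ∈ U', (∀ u ∈ U, B u w = 0) → w = 0) {γ : End K X}
    {d d' : X} {φ φ' : X →ₗ[K] K} {e e' c : K} (hd : d ∈ U) (hφ : φ d = 1)
    (h : ∀ u ∈ U, γ u = u + (e * φ u) • d) (h' : ∀ u ∈ U', γ u = u + (e' * φ' u) • d')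
    (hc : ∀ u ∈ U, ∀ w ∈ U', B (γ u) (γ w) = c * B u w) : c = 1 := by
  let T : U' →ₗ[K] (Fin 2 → K) := LinearMap.pi fun i => if i = 0 then φ'.comp U'.subtype else
    (B d).comp U'.subtype
  have hker : LinearMap.ker T ≠ ⊥ := by
    apply LinearMap.ker_ne_bot_of_finrank_lt
    rw [Module.finrank_fin_fun]
    omega
  obtain ⟨w, hw, hw0⟩ := Submodule.exists_mem_ne_zero_of_ne_bot hker
  have hw1 : φ' (w : X) = 0 := congrFun (LinearMap.mem_ker.1 hw) 0
  have hw2 : B d (w : X) = 0 := congrFun (LinearMap.mem_ker.1 hw) 1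
  have hex : ∃ u ∈ U, B u w ≠ 0 := by
    by_contra hcon
    push Not at hcon
    exact hw0 (Subtype.ext (hB w w.2 hcon))
  obtain ⟨u, hu, hu0⟩ := hex
  have h1 : u - φ u • d ∈ U := U.sub_mem hu (U.smul_mem _ hd)
  have h2 : φ (u - φ u • d) = 0 := by
    rw [map_sub, map_smul, hφ, smul_eq_mul, mul_one, sub_self]
  have h4 := hc _ h1 w w.2
  rw [h _ h1, h' w w.2, h2, hw1, mul_zero, mul_zero, zero_smul, zero_smul, add_zero, add_zero,
    map_sub, map_smul, LinearMap.sub_apply, LinearMap.smul_apply, hw2, smul_zero, sub_zero] at h4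
  have h5 : (c - 1) * B u w = 0 := by
    rw [sub_mul, ← h4, one_mul, sub_self]
  exact sub_eq_zero.1 ((mul_eq_zero.1 h5).resolve_right hu0)

end lin

section eig

variable {k V : Type} [Field k] [CharZero k] [AddCommGroup V] [Module k V]
  [FiniteDimensional k V] {Ω : Type} [Field Ω] [CharZero Ω] [Algebra k Ω]
  {Γ : Type} [Group Γ] {ρ : Representation k Γ V} {χ : Γ →* k} {δ : End k V} {m : ℕ} [NeZero m]
  {ω : V →ₗ[k] V →ₗ[k] k}

theorem iso_ext (hiso : ∀ u v, ω (δ u) (δ v) = ω u v) (x y : Ω ⊗[k] V) :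
    bcb Ω ω (δ.baseChange Ω x) (δ.baseChange Ω y) = bcb Ω ω x y := by
  induction x with
  | zero => simp only [map_zero, LinearMap.zero_apply]
  | add x x' hx hx' => simp only [map_add, LinearMap.add_apply, hx, hx']
  | tmul a x =>
    induction y with
    | zero => simp only [map_zero]
    | add y y' hy hy' => simp only [map_add, hy, hy']
    | tmul b y =>
      rw [LinearMap.baseChange_tmul, LinearMap.baseChange_tmul, bcb_tmul, bcb_tmul, hiso]

/-- The form pairs the eigenspaces for inverse roots of unity only. -/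
theorem orth (hiso : ∀ u v, ω (δ u) (δ v) = ω u v) {z z' : Ω} (hz : z * z' ≠ 1)
    {x y : Ω ⊗[k] V} (hx : x ∈ Eg Ω δ z) (hy : y ∈ Eg Ω δ z') : bcb Ω ω x y = 0 := by
  have h1 := iso_ext (Ω := Ω) hiso x y
  rw [(mem_Eg Ω δ).1 hx, (mem_Eg Ω δ).1 hy, bil_smul] at h1
  have h4 : (z * z' - 1) * bcb Ω ω x y = 0 := by
    rw [sub_mul, one_mul, h1, sub_self]
  exact (mul_eq_zero.1 h4).resolve_left (sub_ne_zero.2 hz)

/-- A vector orthogonal to the inverse eigenspace is zero. -/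
theorem eq_zero_of_orth {z0 : Ω} (hz0 : IsPrimitiveRoot z0 m)
    (hδ : aeval δ (cyclotomic m k) = 0) (hiso : ∀ u v, ω (δ u) (δ v) = ω u v)
    (hl : ∀ u, (∀ v, bcb Ω ω u v = 0) → u = 0) {z : Ω} {u : Ω ⊗[k] V} (hu : u ∈ Eg Ω δ z)
    (h : ∀ v ∈ Eg Ω δ z⁻¹, bcb Ω ω u v = 0) : u = 0 := by
  apply hl
  intro v
  have hv : v ∈ (⨆ t : (ZMod m)ˣ, Eg Ω δ (zt Ω z0 t)) := by
    rw [iSup_Eg δ hz0 hδ]
    trivial
  refine Submodule.iSup_induction _ (motive := fun v => bcb Ω ω u v = 0) hv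
    (fun s v hv => ?_) (map_zero _) (fun x y hx hy => by rw [map_add, hx, hy, add_zero])
  by_cases hs : z * zt Ω z0 s = 1
  · rw [eq_inv_of_mul_eq_one_right hs] at hv
    exact h v hv
  · exact orth hiso hs hu hv

/-- The same on the other side. -/
theorem eq_zero_of_orth' {z0 : Ω} (hz0 : IsPrimitiveRoot z0 m)
    (hδ : aeval δ (cyclotomic m k) = 0) (hiso : ∀ u v, ω (δ u) (δ v) = ω u v)
    (hr : ∀ u, (∀ v, bcb Ω ω v u = 0) → u = 0) {z : Ω} {u : Ω ⊗[k] V} (hu : u ∈ Eg Ω δ z⁻¹)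
    (h : ∀ v ∈ Eg Ω δ z, bcb Ω ω v u = 0) : u = 0 := by
  apply hr
  intro v
  have hv : v ∈ (⨆ t : (ZMod m)ˣ, Eg Ω δ (zt Ω z0 t)) := by
    rw [iSup_Eg δ hz0 hδ]
    trivial
  refine Submodule.iSup_induction _ (motive := fun v => bcb Ω ω v u = 0) hv
    (fun s v hv => ?_) (by rw [map_zero, LinearMap.zero_apply])
    (fun x y hx hy => by rw [map_add, LinearMap.add_apply, hx, hy, add_zero])
  by_cases hs : zt Ω z0 s * z⁻¹ = 1
  · have h1 : zt Ω z0 s = z := by
      have := eq_inv_of_mul_eq_one_left hs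
      rwa [inv_inv] at this
    rw [h1] at hv
    exact h v hv
  · exact orth hiso hs hv hu

/-- The component of the root generates the eigenspace. -/
theorem gen_Eg (hδ : aeval δ (cyclotomic m k) = 0) (hc : ∀ s, ρ s * δ = δ * ρ s) {F : Γ} {d : V}
    (hgen : ∀ W : Submodule k V, d ∈ W → (∀ v ∈ W, δ v ∈ W) → (∀ v ∈ W, ρ F v ∈ W) → W = ⊤)
    {z : Ω} (hz : IsPrimitiveRoot z m) (W : Submodule Ω (Ω ⊗[k] V)) (hW : rt Ω m δ d z ∈ W)
    (hF : ∀ w ∈ W, bcr ρ Ω F w ∈ W) : Eg Ω δ z ≤ W := by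
  -- the projection to the eigenspace
  set p : End Ω (Ω ⊗[k] V) := aeval (δ.baseChange Ω) (ez Ω m z) with hp
  have hpδ : ∀ x, p (δ.baseChange Ω x) = z • p x := by
    intro x
    have h1 : p (δ.baseChange Ω x) = δ.baseChange Ω (p x) := by
      have h2 : Commute p (δ.baseChange Ω) := by
        have h3 : Commute (aeval (δ.baseChange Ω) (ez Ω m z))
            (aeval (δ.baseChange Ω) (Polynomial.X : Polynomial Ω)) := by
          change _ * _ = _ * _
          rw [← map_mul, ← map_mul, mul_comm]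
        rwa [aeval_X] at h3
      exact congrArg (fun f : End Ω (Ω ⊗[k] V) => f x) h2.eq
    rw [h1]
    exact (mem_Eg Ω δ).1 (ez_mem hδ hz x)
  have hpF : ∀ x, p (bcr ρ Ω F x) = bcr ρ Ω F (p x) := by
    intro x
    have h1 : Commute (bcr ρ Ω F) (δ.baseChange Ω) := by
      change (ρ F).baseChange Ω ∘ₗ δ.baseChange Ω = δ.baseChange Ω ∘ₗ (ρ F).baseChange Ω
      rw [← LinearMap.baseChange_comp, ← LinearMap.baseChange_comp]
      congr 1
      exact hc F
    have h2 : ∀ q : Polynomial Ω, Commute (bcr ρ Ω F) (aeval (δ.baseChange Ω) q) := by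
      intro q
      induction q using Polynomial.induction_on' with
      | add q r hq hr =>
        rw [map_add]
        exact hq.add_right hr
      | monomial n c =>
        rw [aeval_monomial]
        have h5 : Commute (bcr ρ Ω F) (algebraMap Ω (End Ω (Ω ⊗[k] V)) c) :=
          (Algebra.commutes c (bcr ρ Ω F)).symm
        exact h5.mul_right (h1.pow_right n)
    exact (congrArg (fun f : End Ω (Ω ⊗[k] V) => f x) (h2 (ez Ω m z)).eq).symm
  let W' : Submodule k V :=
    { carrier := {v | p ((1 : Ω) ⊗ₜ[k] v) ∈ W}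
      add_mem' := fun {a b} ha hb => by
        change p ((1 : Ω) ⊗ₜ[k] (a + b)) ∈ W
        rw [tmul_add, map_add]
        exact W.add_mem ha hb
      zero_mem' := by
        change p ((1 : Ω) ⊗ₜ[k] (0 : V)) ∈ W
        rw [tmul_zero, map_zero]
        exact W.zero_mem
      smul_mem' := fun c x hx => by
        change p ((1 : Ω) ⊗ₜ[k] (c • x)) ∈ W
        rw [tmul_smul, ← algebraMap_smul Ω c, map_smul]
        exact W.smul_mem _ hx }
  have h1 : W' = ⊤ := by
    refine hgen W' hW (fun v hv => ?_) (fun v hv => ?_)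
    · change p ((1 : Ω) ⊗ₜ[k] δ v) ∈ W
      rw [← LinearMap.baseChange_tmul, hpδ]
      exact W.smul_mem _ hv
    · change p ((1 : Ω) ⊗ₜ[k] ρ F v) ∈ W
      rw [← bcr_tmul, hpF]
      exact hF _ hv
  have h2 : ∀ x : Ω ⊗[k] V, p x ∈ W := by
    intro x
    induction x with
    | zero => rw [map_zero]; exact W.zero_mem
    | add x y hx hy => rw [map_add]; exact W.add_mem hx hy
    | tmul a v =>
      have h3 : v ∈ W' := by rw [h1]; trivial
      have h4 : a ⊗ₜ[k] v = a • ((1 : Ω) ⊗ₜ[k] v) := by rw [smul_tmul', smul_eq_mul, mul_one]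
      rw [h4, map_smul]
      exact W.smul_mem _ h3
  intro u hu
  have h3 := h2 u
  rw [hp, aeval_on _ hu] at h3
  have h4 := W.smul_mem ((ez Ω m z).eval z)⁻¹ h3
  rwa [smul_smul, inv_mul_cancel₀ ez_eval, one_smul] at h4

variable [IsAlgClosed Ω]

/-- The eigenspaces are strongly irreducible. -/
theorem SI_Eg (hm : 3 ≤ m) (hδ : aeval δ (cyclotomic m k) = 0) (hc : ∀ s, ρ s * δ = δ * ρ s)
    (hiso : ∀ u v, ω (δ u) (δ v) = ω u v) (hω : ∀ s u v, ω (ρ s u) (ρ s v) = χ s * ω u v)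
    (hl : ∀ u, (∀ v, bcb Ω ω u v = 0) → u = 0) (hr : ∀ u, (∀ v, bcb Ω ω v u = 0) → u = 0)
    {γ F : Γ} {d : V} (hγ : IsReflectionAt m δ (ρ γ) d)
    (hgen : ∀ W : Submodule k V, d ∈ W → (∀ v ∈ W, δ v ∈ W) → (∀ v ∈ W, ρ F v ∈ W) → W = ⊤)
    {z : Ω} (hz : IsPrimitiveRoot z m) (h3 : 3 ≤ finrank Ω (Eg Ω δ z))
    (h3' : 3 ≤ finrank Ω (Eg Ω δ z⁻¹)) (hst : ∀ u ∈ Eg Ω δ z, bcr ρ Ω F u ∈ Eg Ω δ z)
    (hsep : (charpolyOn (bcr ρ Ω F) (Eg Ω δ z) hst).Separable)
    (hroots : ∀ a b, (charpolyOn (bcr ρ Ω F) (Eg Ω δ z) hst).IsRoot a →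
      (charpolyOn (bcr ρ Ω F) (Eg Ω δ z) hst).IsRoot b → a ≠ b →
      ∀ N : ℕ, 0 < N → a ^ N ≠ b ^ N) : SI (bcr ρ Ω) (Eg Ω δ z) := by
  classical
  have hinv := bcb_inv (Ω := Ω) ρ χ ω hω
  obtain ⟨a, s, ha, hs, hrefl⟩ := reflects_at (Ω := Ω) hm hδ hc hγ
  have hzi : IsPrimitiveRoot z⁻¹ m := hz.inv
  obtain ⟨φ, hd, hφ, h1⟩ := hrefl z hz
  obtain ⟨φ', hd', hφ', h1'⟩ := hrefl z⁻¹ hzi
  have hroot := root_ne hm hz ha hs
  have hroot' := root_ne hm hzi ha hs
  set d1 := rt Ω m δ d z with hd1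
  set d2 := rt Ω m δ d z⁻¹ with hd2
  have hstab : ∀ g, ∀ u ∈ Eg Ω δ z, bcr ρ Ω g u ∈ Eg Ω δ z := fun g => Eg_stable hc z g
  have hstab' : ∀ g, ∀ u ∈ Eg Ω δ z⁻¹, bcr ρ Ω g u ∈ Eg Ω δ z⁻¹ := fun g => Eg_stable hc z⁻¹ g
  -- the multiplier of the reflection
  have hχ : bcc χ Ω γ = 1 := by
    refine mult_one (U := Eg Ω δ z) (U' := Eg Ω δ z⁻¹) h3' (bcb Ω ω) ?_ (γ := bcr ρ Ω γ) hd hφ
      (fun u hu => ?_) (fun u hu => ?_) (fun u _ w _ => hinv γ u w) (e := s * z ^ a - 1)
      (e' := s * z⁻¹ ^ a - 1) (d' := d2) (φ' := φ')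
    · intro w hw h
      exact eq_zero_of_orth' hz hδ hiso hr hw h
    · rw [h1 u hu, one_smul]
    · rw [h1' u hu, one_smul]
  -- no eigenvector is fixed by the reflection
  have hfix : ∀ (u : Ω ⊗[k] V) (c : Ω), u ∈ Eg Ω δ z → u ≠ 0 → bcr ρ Ω F u = c • u → φ u ≠ 0 := by
    intro u c hu hu0 hFu h0
    have h2 : bcb Ω ω u d2 = 0 := by
      have h4 := hinv γ u d2
      rw [hχ, one_mul, h1 u hu, h0, mul_zero, zero_smul, add_zero, one_smul, h1' d2 hd', hφ',
        mul_one, one_smul, map_add, map_smul, smul_eq_mul] at h4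
      have h5 : (s * z⁻¹ ^ a - 1) * bcb Ω ω u d2 = 0 := by
        linear_combination h4
      exact (mul_eq_zero.1 h5).resolve_left (sub_ne_zero.2 hroot'.1)
    have hc0 : c ≠ 0 := by
      rintro rfl
      rw [zero_smul] at hFu
      exact Rne (R := bcr ρ Ω) F hu0 hFu
    let W : Submodule Ω (Ω ⊗[k] V) := LinearMap.ker (bcb Ω ω u)
    have h4 := gen_Eg hδ hc hgen hzi W (by
      rw [LinearMap.mem_ker]
      exact h2) (fun w hw => by
      rw [LinearMap.mem_ker] at hw ⊢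
      have h5 := hinv F u w
      rw [hFu, map_smul, LinearMap.smul_apply, hw, mul_zero, smul_eq_mul] at h5
      exact (mul_eq_zero.1 h5).resolve_left hc0)
    exact hu0 (eq_zero_of_orth hz hδ hiso hl hu fun v hv => LinearMap.mem_ker.1 (h4 hv))
  have hne : Eg Ω δ z ≠ ⊥ := by
    intro h
    rw [h, finrank_bot] at h3
    omega
  refine SI_of_sub hstab hne fun W hW => ?_
  obtain ⟨r, b, al, hb, hal, halr⟩ := exists_simple_basis_on (bcr ρ Ω F) (Eg Ω δ z) hst hsep
  have hb' : ∀ i, subR (bcr ρ Ω) (Eg Ω δ z) hstab F (b i) = al i • b i :=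
    fun i => Subtype.ext (hb i)
  refine irr_of_reflection (R := subR (bcr ρ Ω) (Eg Ω δ z) hstab) b al F γ hb'
    (fun N hN i j hij => ?_) (d := (⟨d1, hd⟩ : Eg Ω δ z))
    (φ := φ.comp (Eg Ω δ z).subtype) (ε := s * z ^ a) hφ hroot.1 hroot.2 (fun u => ?_) ?_ ?_ W hW
  · by_contra hne
    exact hroots (al i) (al j) (halr i) (halr j) (fun h => hne (hal h)) N hN hij
  · apply Subtype.ext
    have h2 := h1 u u.2
    rw [one_smul] at h2
    exact h2
  · intro W' hW' hdW'
    rw [eq_top_iff]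
    intro u _
    have h2 := gen_Eg hδ hc hgen hz (W'.map (Eg Ω δ z).subtype) ⟨⟨d1, hd⟩, hdW', rfl⟩
      (by
        rintro _ ⟨w, hw, rfl⟩
        exact ⟨_, hW' w hw, rfl⟩)
    obtain ⟨w, hw, hwu⟩ := h2 u.2
    have h4 : w = u := Subtype.ext hwu
    rwa [← h4]
  · intro i
    exact hfix (b i) (al i) (b i).2 (fun h => b.ne_zero i (Subtype.ext h)) (hb i)

end eig

end

end Pool.Agent.Helper8K9.CY
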