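import Mathlib
import Pool.Agent.Helper8K9.CY.SIz

/-!
# Descent of projections, commuting operators and bilinear forms
-/

set_option autoImplicit false
set_option linter.unusedSectionVars false

namespace Pool.Agent.Helper8K9.CY

open Module TensorProduct Polynomial
open Pool.Agent.H204R3.SP Pool.Agent.H204R3.GP Pool.Agent.W522.U Pool.Agent.TH118.CR
open Pool.Agent.Helper8K9.CR

noncomputable section

variable {k V : Type} [Field k] [CharZero k] [AddCommGroup V] [Module k V]
  [FiniteDimensional k V] {Ω : Type} [Field Ω] [CharZero Ω] [Algebra k Ω]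
  {Γ : Type} [Group Γ] {ρ : Representation k Γ V} {χ : Γ →* k} {δ : End k V} {m : ℕ} [NeZero m]
  {ω : V →ₗ[k] V →ₗ[k] k}

theorem coo_span {I : Type} (e : Basis I k Ω) (i : I) {U : Submodule k V} {x : Ω ⊗[k] V}
    (hx : x ∈ Submodule.span Ω ((fun v => (1 : Ω) ⊗ₜ[k] v) '' (U : Set V))) :
    coo Ω e i x ∈ U := by
  have key : ∀ x ∈ Submodule.span Ω ((fun v => (1 : Ω) ⊗ₜ[k] v) '' (U : Set V)),
      ∀ a : Ω, coo Ω e i (a • x) ∈ U := by
    intro x hx
    induction hx using Submodule.span_induction with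
    | mem x hx =>
      obtain ⟨u, hu, rfl⟩ := hx
      intro a
      change coo Ω e i (a • ((1 : Ω) ⊗ₜ[k] u)) ∈ U
      rw [smul_tmul', smul_eq_mul, mul_one, coo_tmul]
      exact U.smul_mem _ hu
    | zero =>
      intro a
      rw [smul_zero, map_zero]
      exact U.zero_mem
    | add x y _ _ hx hy =>
      intro a
      rw [smul_add, map_add]
      exact U.add_mem (hx a) (hy a)
    | smul c x _ hx =>
      intro a
      rw [smul_smul]
      exact hx _
  have h := key x hx 1
  rwa [one_smul] at h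

theorem exists_coord : ∃ i : Basis.ofVectorSpaceIndex k Ω,
    (Basis.ofVectorSpace k Ω).coord i 1 ≠ 0 := by
  by_contra hcon
  push Not at hcon
  apply one_ne_zero (α := Ω)
  rw [← (Basis.ofVectorSpace k Ω).repr.map_eq_zero_iff]
  ext i
  exact hcon i

/-- Semisimplicity descends. -/
theorem semisimple_of_proj (h : HasProj (bcr ρ Ω)) : FiniteIndexSemisimple ρ := by
  intro Δ hΔ U hU
  set UΩ : Submodule Ω (Ω ⊗[k] V) := Submodule.span Ω ((fun v => (1 : Ω) ⊗ₜ[k] v) '' (U : Set V))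
    with hUΩ
  have hst : ∀ s ∈ Δ, ∀ u ∈ UΩ, bcr ρ Ω s u ∈ UΩ := by
    intro s hs u hu
    induction hu using Submodule.span_induction with
    | mem x hx =>
      obtain ⟨v, hv, rfl⟩ := hx
      exact Submodule.subset_span ⟨ρ s v, hU s hs v hv, rfl⟩
    | zero => rw [map_zero]; exact Submodule.zero_mem _
    | add x y _ _ hx hy => rw [map_add]; exact Submodule.add_mem _ hx hy
    | smul c x _ hx => rw [map_smul]; exact Submodule.smul_mem _ _ hx
  obtain ⟨P, hP1, hP2, hP3⟩ := h Δ hΔ UΩ hst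
  obtain ⟨i, hi⟩ := exists_coord (k := k) (Ω := Ω)
  set e := Basis.ofVectorSpace k Ω with he
  let p : End k V := (e.coord i 1)⁻¹ • comp Ω e P i
  have hp1 : ∀ v, p v ∈ U := by
    intro v
    exact U.smul_mem _ (coo_span e i (hP1 _))
  have hp2 : ∀ u ∈ U, p u = u := by
    intro u hu
    change (e.coord i 1)⁻¹ • comp Ω e P i u = u
    rw [comp_apply, hP2 _ (Submodule.subset_span ⟨u, hu, rfl⟩), coo_tmul, smul_smul,
      inv_mul_cancel₀ hi, one_smul]
  have hp3 : ∀ s ∈ Δ, ∀ v, p (ρ s v) = ρ s (p v) := by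
    intro s hs v
    have h1 := comp_comm Ω ρ e P s (hP3 s hs) i
    have h2 := congrArg (fun f : End k V => f v) h1
    change (e.coord i 1)⁻¹ • comp Ω e P i (ρ s v) = ρ s ((e.coord i 1)⁻¹ • comp Ω e P i v)
    rw [map_smul]
    congr 1
  refine ⟨LinearMap.ker p, fun s hs u hu => ?_, ?_⟩
  · rw [LinearMap.mem_ker] at hu ⊢
    rw [hp3 s hs, hu, map_zero]
  · constructor
    · rw [disjoint_iff, eq_bot_iff]
      rintro x ⟨hx, hx'⟩
      have h1 := hp2 x hx
      rw [LinearMap.mem_ker.1 hx'] at h1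
      rw [Submodule.mem_bot, ← h1]
    · rw [codisjoint_iff, eq_top_iff]
      intro x _
      have h1 : x = p x + (x - p x) := by abel
      rw [h1]
      refine Submodule.add_mem_sup (hp1 x) ?_
      rw [LinearMap.mem_ker, map_sub, hp2 _ (hp1 x), sub_self]

/-- An operator that acts on the eigenspaces of `δ` over the extension as scalars is a polynomial in
`δ`. -/
theorem mem_adjoin {z0 : Ω} (hz0 : IsPrimitiveRoot z0 m) (hδ : aeval δ (cyclotomic m k) = 0)
    {A : End k V} {c : (ZMod m)ˣ → Ω}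
    (hA : ∀ t, ∀ u ∈ Eg Ω δ (zt Ω z0 t), A.baseChange Ω u = c t • u) :
    A ∈ Algebra.adjoin k {δ} := by
  classical
  let p : Polynomial Ω := Lagrange.interpolate Finset.univ (fun t : (ZMod m)ˣ => zt Ω z0 t) c
  have hp : ∀ x, A.baseChange Ω x = aeval (δ.baseChange Ω) p x := by
    intro x
    have hx : x ∈ (⨆ t : (ZMod m)ˣ, Eg Ω δ (zt Ω z0 t)) := by
      rw [iSup_Eg δ hz0 hδ]
      trivial
    refine Submodule.iSup_induction _ (motive := fun x => A.baseChange Ω x =
      aeval (δ.baseChange Ω) p x) hx (fun t u hu => ?_) (by rw [map_zero, map_zero])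
      (fun x y hx hy => by rw [map_add, map_add, hx, hy])
    rw [hA t u hu, aeval_on p hu]
    congr 1
    symm
    exact Lagrange.eval_interpolate_at_node _ (fun s _ t _ h => zt_inj hz0 h) (Finset.mem_univ t)
  obtain ⟨i, hi⟩ := exists_coord (k := k) (Ω := Ω)
  set e := Basis.ofVectorSpace k Ω with he
  have h1 : A = (e.coord i 1)⁻¹ • ∑ j ∈ Finset.range (p.natDegree + 1),
      e.coord i (p.coeff j) • δ ^ j := by
    ext v
    have h2 := congrArg (coo Ω e i) (hp ((1 : Ω) ⊗ₜ[k] v))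
    rw [LinearMap.baseChange_tmul, coo_tmul, aeval_eq_sum_range, LinearMap.sum_apply, map_sum] at h2
    have h3 : ∀ j, coo Ω e i ((p.coeff j • (δ.baseChange Ω) ^ j) ((1 : Ω) ⊗ₜ[k] v)) =
        e.coord i (p.coeff j) • (δ ^ j) v := by
      intro j
      rw [LinearMap.smul_apply, dl_pow, smul_tmul', smul_eq_mul, mul_one, coo_tmul]
    rw [Finset.sum_congr rfl fun j _ => h3 j] at h2
    rw [LinearMap.smul_apply, LinearMap.sum_apply]
    have h4 : ∑ j ∈ Finset.range (p.natDegree + 1), (e.coord i (p.coeff j) • δ ^ j) v =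
        ∑ j ∈ Finset.range (p.natDegree + 1), e.coord i (p.coeff j) • (δ ^ j) v :=
      Finset.sum_congr rfl fun j _ => rfl
    rw [h4, ← h2, smul_smul, inv_mul_cancel₀ hi, one_smul]
  rw [h1]
  refine Subalgebra.smul_mem _ (Subalgebra.sum_mem _ fun j _ => ?_) _
  exact Subalgebra.smul_mem _ (Subalgebra.pow_mem _ (Algebra.self_mem_adjoin_singleton k δ) j) _

omit [CharZero k] in
/-- Bilinear Tate forms come from commuting operators. -/
theorem tate2_op (hnd : ∀ u, (∀ v, ω v u = 0) → u = 0)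
    (hω : ∀ s u v, ω (ρ s u) (ρ s v) = χ s * ω u v) {B : V →ₗ[k] V →ₗ[k] k}
    {Δ : Subgroup Γ} (hB : ∀ s ∈ Δ, ∀ u v, B (ρ s u) (ρ s v) = χ s * B u v) :
    ∃ A : End k V, (∀ s ∈ Δ, A * ρ s = ρ s * A) ∧ ∀ u v, B u v = ω (A u) v := by
  have hl := nondeg_left ω hnd
  have hinj : Function.Injective ω := by
    rw [injective_iff_map_eq_zero]
    intro u hu
    exact hl u fun v => by rw [hu, LinearMap.zero_apply]
  have hsurj : Function.Surjective ω :=
    (LinearMap.injective_iff_surjective_of_finrank_eq_finrank (Subspace.dual_finrank_eq).symm).1 hinj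
  let e : V ≃ₗ[k] (V →ₗ[k] k) := LinearEquiv.ofBijective ω ⟨hinj, hsurj⟩
  let A : End k V := e.symm.toLinearMap.comp B
  have hA : ∀ u v, B u v = ω (A u) v := by
    intro u v
    have h1 : e (A u) = B u := e.apply_symm_apply (B u)
    exact (congrArg (fun f : V →ₗ[k] k => f v) h1).symm
  refine ⟨A, fun s hs => ?_, hA⟩
  ext u
  rw [End.mul_apply, End.mul_apply, ← sub_eq_zero]
  refine hl _ fun v => ?_
  have h2 := hB s hs u (ρ s⁻¹ v)
  have h3 := hω s (A u) (ρ s⁻¹ v)
  rw [Rinv'] at h2 h3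
  rw [map_sub, LinearMap.sub_apply, ← hA, h2, h3, hA, sub_self]

end

end Pool.Agent.Helper8K9.CY
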