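import Mathlib
import Pool.Agent.Helper8K9.CY.Desc

/-!
# The main theorem on unitary representations with a complex reflection
-/

set_option autoImplicit false
set_option linter.unusedSectionVars false

namespace Pool.Agent.Helper8K9.CY

open Module TensorProduct Polynomial
open Pool.Agent.H204R3.SP Pool.Agent.H204R3.GP Pool.Agent.W522.U Pool.Agent.TH118.CR
open Pool.Agent.TH118.WC
open Pool.Agent.Helper8K9.CR

noncomputable section

section defs

/-- The element `F` of the group has the polynomial `Q` over the field `E`: for every embedding of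
`E` in `Ω` the polynomial `Q` is the characteristic polynomial of `F` on the eigenspace of `δ` for the
image of `ζ`. The form is multiplied by the integer `N`. -/
structure HasPolynomial {k V : Type} [Field k] [CharZero k] [AddCommGroup V] [Module k V]
    [FiniteDimensional k V] (Ω : Type) [Field Ω] [CharZero Ω] [Algebra k Ω]
    {Γ : Type} [Group Γ] (ρ : Representation k Γ V) (χ : Γ →* k) (δ : End k V)
    {E : Type} [Field E] (ζ : E) (Q : Polynomial E) (N : ℕ) (F : Γ) : Prop where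
  /-- the multiplier -/
  multiplier : χ F = N
  /-- the characteristic polynomials -/
  charpoly : ∀ (ι : E →+* Ω) (h : ∀ u ∈ Eg Ω δ (ι ζ), bcr ρ Ω F u ∈ Eg Ω δ (ι ζ)),
    charpolyOn (bcr ρ Ω F) (Eg Ω δ (ι ζ)) h = Q.map ι

/-- The valuations (or the values of any other homomorphism to the integers) of the constant
coefficient of `Q` and of its conjugates are a nonzero multiple of the values of `n`. -/
def HasValuations {E : Type} [Field E] {m : ℕ} [NeZero m] (ζ : E) (Q : Polynomial E)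
    (n : (ZMod m)ˣ → ℤ) : Prop :=
  ∃ (w : Additive Eˣ →+ ℤ) (D : Eˣ) (c : ℤ), c ≠ 0 ∧ (D : E) = Q.coeff 0 ∧
    ∀ (t : (ZMod m)ˣ) (σ : E ≃+* E), σ ζ = ζ ^ (t : ZMod m).val →
      w (Additive.ofMul (Units.map (σ : E →* E) D)) = c * n t

/-- The products of the forms `ω(δ ^ a x, y)` in `2 n` variables. -/
def GraphProducts {k V : Type} [Field k] [AddCommGroup V] [Module k V] (ω : V →ₗ[k] V →ₗ[k] k)
    (δ : End k V) (n : ℕ) : Set (MultilinearMap k (fun _ : Fin n × Fin 2 => V) k) :=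
  {φ | ∃ (σ : Equiv.Perm (Fin n × Fin 2)) (a : Fin n → ℕ),
    ∀ v, φ v = ∏ l, ω ((δ ^ a l) (v (σ (l, 0)))) (v (σ (l, 1)))}

end defs

section arith

variable {E : Type} [Field E] [CharZero E] {m : ℕ} [NeZero m] [IsCyclotomicExtension {m} ℚ E]
  {ζ : E}

/-- The relation between the determinants, read off with the valuation. -/
theorem sum_const (hζ : IsPrimitiveRoot ζ m) {Q : Polynomial E} {n : (ZMod m)ˣ → ℤ}
    (hval : HasValuations ζ Q n)
    (σ : (ZMod m)ˣ → E ≃+* E) (hσ : ∀ t, σ t ζ = ζ ^ (t : ZMod m).val)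
    (r N : ℕ) (hN : 0 < N) (x : Eˣ) (hx : ∀ t, σ t (x : E) = x) {P : Type} [Fintype P]
    (i : P → (ZMod m)ˣ)
    (h : ∏ p, ((-1) ^ r * σ (i p) (Q.coeff 0)) ^ N = (x : E)) :
    ∃ c : ℤ, ∀ u, ∑ p, n (i p * u) = c := by
  classical
  obtain ⟨w, D, c0, hc0, hD, hw⟩ := hval
  have hneg : w (Additive.ofMul (-1 : Eˣ)) = 0 := by
    have h1 : w (Additive.ofMul (-1 : Eˣ)) + w (Additive.ofMul (-1 : Eˣ)) = 0 := by
      rw [← map_add, ← ofMul_mul]
      norm_num
    omega
  have key : ∀ u, (N : ℤ) * c0 * ∑ p, n (i p * u) = w (Additive.ofMul x) := by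
    intro u
    have h1 : ∏ p, ((-1 : Eˣ) ^ r * Units.map ((σ (i p * u) : E ≃+* E) : E →* E) D) ^ N = x := by
      have h2 := congrArg (σ u) h
      rw [map_prod, hx] at h2
      apply Units.ext
      rw [Units.coe_prod, ← h2]
      refine Finset.prod_congr rfl fun p _ => ?_
      rw [Units.val_pow_eq_pow_val, Units.val_mul, Units.val_pow_eq_pow_val, Units.val_neg,
        Units.val_one, map_pow, map_mul, map_pow, map_neg, map_one, Units.coe_map]
      congr 2
      rw [← hD]
      -- the automorphisms agree on the generator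
      have h3 : ((σ (i p * u) : E ≃+* E) : E →+* E) =
          ((σ u : E ≃+* E) : E →+* E).comp ((σ (i p) : E ≃+* E) : E →+* E) := by
        have h4 : (RingHom.toRatAlgHom ((σ (i p * u) : E ≃+* E) : E →+* E)) =
            RingHom.toRatAlgHom (((σ u : E ≃+* E) : E →+* E).comp
              ((σ (i p) : E ≃+* E) : E →+* E)) := by
          refine (hζ.powerBasis ℚ).algHom_ext ?_
          rw [IsPrimitiveRoot.powerBasis_gen]
          change σ (i p * u) ζ = σ u (σ (i p) ζ)
          rw [hσ, hσ, map_pow, hσ, ← pow_mul, Units.val_mul, ZMod.val_mul, mul_comm (i p : ZMod m).val]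
          conv_rhs => rw [← pow_mod_orderOf]
          rw [← hζ.eq_orderOf]
        exact congrArg (fun f : E →ₐ[ℚ] E => (f : E →+* E)) h4
      exact congrArg (fun f : E →+* E => f (D : E)) h3
    have h5 := congrArg (fun y : Eˣ => w (Additive.ofMul y)) h1
    simp only [ofMul_prod, map_sum, ofMul_pow, map_nsmul, ofMul_mul, map_add, hneg, smul_zero,
      zero_add] at h5
    have h6 : ∀ p, w (Additive.ofMul (Units.map ((σ (i p * u) : E ≃+* E) : E →* E) D)) =
        c0 * n (i p * u) := fun p => hw _ _ (hσ _)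
    simp only [h6, nsmul_eq_mul] at h5
    rw [← h5, Finset.mul_sum]
    refine Finset.sum_congr rfl fun p _ => ?_
    ring
  have h7 : (N : ℤ) * c0 ≠ 0 := mul_ne_zero (by exact_mod_cast hN.ne') hc0
  refine ⟨∑ p, n (i p * 1), fun u => ?_⟩
  exact mul_left_cancel₀ h7 ((key u).trans (key 1).symm)

end arith

section main

variable {k V : Type} [Field k] [CharZero k] [AddCommGroup V] [Module k V]
  [FiniteDimensional k V] {Γ : Type} [Group Γ] {ρ : Representation k Γ V} {χ : Γ →* k}
  {δ : End k V} {m : ℕ} [NeZero m] {ω : V →ₗ[k] V →ₗ[k] k}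

/-- The structure of the representation over the algebraic closure. -/
theorem over_closure {Ω : Type} [Field Ω] [CharZero Ω] [Algebra k Ω] [IsAlgClosed Ω]
    (hm : 3 ≤ m) (hnd : ∀ u, (∀ v, ω v u = 0) → u = 0)
    (hω : ∀ s u v, ω (ρ s u) (ρ s v) = χ s * ω u v)
    (hδ : aeval δ (cyclotomic m k) = 0) (hc : ∀ s, ρ s * δ = δ * ρ s)
    (hiso : ∀ u v, ω (δ u) (δ v) = ω u v) {γ F : Γ} {d : V}
    (hγ : IsReflectionAt m δ (ρ γ) d)
    (hgen : ∀ W : Submodule k V, d ∈ W → (∀ v ∈ W, δ v ∈ W) → (∀ v ∈ W, ρ F v ∈ W) → W = ⊤)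
    {E : Type} [Field E] [CharZero E] [IsCyclotomicExtension {m} ℚ E] {ζ : E}
    (hζ : IsPrimitiveRoot ζ m) {Q : Polynomial E} {N : ℕ}
    (hF : HasPolynomial Ω ρ χ δ ζ Q N F) (hdeg : 3 ≤ Q.natDegree) (hsep : Q.Separable)
    (hroots : ∀ a b : AlgebraicClosure E, aeval a Q = 0 → aeval b Q = 0 → a ≠ b →
      ∀ k : ℕ, 0 < k → a ^ k ≠ b ^ k)
    {n : (ZMod m)ˣ → ℤ} (hn : Nondegenerate n) (hval : HasValuations ζ Q n) :
    ∃ z0 : Ω, IsPrimitiveRoot z0 m ∧ (∀ t : (ZMod m)ˣ, SI (bcr ρ Ω) (Eg Ω δ (zt Ω z0 t))) ∧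
      (∀ t t' : (ZMod m)ˣ, Tw (bcr ρ Ω) (fun _ => 1) (Eg Ω δ (zt Ω z0 t)) (Eg Ω δ (zt Ω z0 t')) →
        t = t') ∧
      (∀ t : (ZMod m)ˣ, Du (bcr ρ Ω) (bcc χ Ω) (Eg Ω δ (zt Ω z0 t)) (Eg Ω δ (zt Ω z0 (-t)))) ∧
      ∀ (j : ℕ) (φ : MultilinearMap Ω (fun _ : Fin j × Fin 2 => Ω ⊗[k] V) Ω),
        IsTate (bcr ρ Ω) (bcc χ Ω) j φ →
        φ ∈ Submodule.span Ω (PT (bcr ρ Ω) (bcc χ Ω) j) := by
  classical
  -- embeddings
  have halgE : Algebra.IsAlgebraic ℚ E :=
    have := IsCyclotomicExtension.finiteDimensional {m} ℚ E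
    inferInstance
  have hemb : Nonempty (AlgebraicClosure E →+* Ω) := by
    have h1 : Algebra.IsAlgebraic ℚ (AlgebraicClosure E) := Algebra.IsAlgebraic.trans ℚ E _
    exact ⟨(IsAlgClosed.lift : AlgebraicClosure E →ₐ[ℚ] Ω).toRingHom⟩
  obtain ⟨J⟩ := hemb
  let ι0 : E →+* Ω := J.comp (algebraMap E (AlgebraicClosure E))
  set z0 : Ω := ι0 ζ with hz0
  have hz : IsPrimitiveRoot z0 m := hζ.map_of_injective ι0.injective
  choose σ hσ using fun t : (ZMod m)ˣ => exists_conj hζ t
  let ι : (ZMod m)ˣ → E →+* Ω := fun t => ι0.comp ((σ t : E ≃+* E) : E →+* E)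
  have hι : ∀ t, ι t ζ = zt Ω z0 t := by
    intro t
    change ι0 (σ t ζ) = _
    rw [hσ, map_pow]
    rfl
  let R := bcr ρ Ω
  let U : (ZMod m)ˣ → Submodule Ω (Ω ⊗[k] V) := fun t => Eg Ω δ (zt Ω z0 t)
  have hst : ∀ t, ∀ g : Γ, ∀ u ∈ U t, R g u ∈ U t := fun t g => Eg_stable hc _ g
  have hcp : ∀ t, charpolyOn (R F) (U t) (hst t F) = Q.map (ι t) := by
    intro t
    have h1 := hF.charpoly (ι t)
    rw [hι t] at h1
    exact h1 (hst t F)
  have hrk : ∀ t, Module.finrank Ω (U t) = Q.natDegree := by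
    intro t
    have h1 := charpolyOn_natDegree (hst t F)
    rw [← h1, hcp, natDegree_map]
  -- the form
  have hnd' := nondeg_left ω hnd
  have hl1 : ∀ u, (∀ v, bcb Ω ω u v = 0) → u = 0 := fun u hu => bcb_nondeg_left ω hnd hnd' u hu
  have hr1 : ∀ u, (∀ v, bcb Ω ω v u = 0) → u = 0 := fun u hu => bcb_nondeg_right ω hnd hnd' u hu
  have hinv := bcb_inv (Ω := Ω) ρ χ ω hω
  -- roots
  have hQ0 : Q ≠ 0 := by
    rintro rfl
    rw [natDegree_zero] at hdeg
    omega
  have hrts : ∀ t a b, (charpolyOn (R F) (U t) (hst t F)).IsRoot a →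
      (charpolyOn (R F) (U t) (hst t F)).IsRoot b → a ≠ b → ∀ N : ℕ, 0 < N → a ^ N ≠ b ^ N := by
    intro t a b ha hb hab N hN h
    rw [hcp] at ha hb
    -- both roots come from the same embedding
    let alg : Algebra E Ω := (ι t).toAlgebra
    have h1 : Nonempty (AlgebraicClosure E →ₐ[E] Ω) := ⟨IsAlgClosed.lift⟩
    obtain ⟨J'⟩ := h1
    have hspl : (Q.map (algebraMap E (AlgebraicClosure E))).Splits := IsAlgClosed.splits _
    have h3 : Q.map (ι t) = (Q.map (algebraMap E (AlgebraicClosure E))).map J'.toRingHom := by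
      rw [Polynomial.map_map]
      congr 1
      ext x
      exact (J'.commutes x).symm
    have h4 : ∀ y, (Q.map (ι t)).IsRoot y → ∃ x, aeval x Q = 0 ∧ J' x = y := by
      intro y hy
      rw [h3] at hy
      have h4 : y ∈ ((Q.map (algebraMap E (AlgebraicClosure E))).map J'.toRingHom).roots := by
        rw [mem_roots]
        · exact hy
        · rw [← h3]
          exact (Polynomial.map_ne_zero_iff (ι t).injective).2 hQ0
      rw [hspl.roots_map] at h4
      obtain ⟨x, hx, hxy⟩ := Multiset.mem_map.1 h4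
      refine ⟨x, ?_, hxy⟩
      have h5 := isRoot_of_mem_roots hx
      rwa [IsRoot.def, eval_map, ← aeval_def] at h5
    obtain ⟨x, hx, rfl⟩ := h4 a ha
    obtain ⟨y, hy, rfl⟩ := h4 b hb
    refine hroots x y hx hy (fun h => hab (by rw [h])) N hN ?_
    rw [← map_pow, ← map_pow] at h
    exact J'.toRingHom.injective h
  have hninv : ∀ t : (ZMod m)ˣ, (zt Ω z0 t)⁻¹ = zt Ω z0 (-t) := by
    intro t
    apply inv_eq_of_mul_eq_one_right
    unfold zt
    rw [← pow_add, hz.pow_eq_one_iff_dvd, ← ZMod.natCast_eq_zero_iff, Nat.cast_add,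
      ZMod.natCast_zmod_val, ZMod.natCast_zmod_val, Units.val_neg, add_neg_cancel]
  have hSI : ∀ t, SI R (U t) := by
    intro t
    refine SI_Eg hm hδ hc hiso hω hl1 hr1 hγ hgen (zt_prim hz t) ?_ ?_ (hst t F) ?_ (hrts t)
    · rw [show finrank Ω (Eg Ω δ (zt Ω z0 t)) = Q.natDegree from hrk t]
      exact hdeg
    · rw [hninv, show finrank Ω (Eg Ω δ (zt Ω z0 (-t))) = Q.natDegree from hrk (-t)]
      exact hdeg
    · have h1 := hcp t
      rw [show charpolyOn (bcr ρ Ω F) (Eg Ω δ (zt Ω z0 t)) (hst t F) = Q.map (ι t) from h1]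
      exact hsep.map
  have hsup : ⨆ t, U t = ⊤ := iSup_Eg δ hz hδ
  have hpr : HasProj R := hasProj_of_SI hst hSI hsup
  have hE : StronglyIrreducibleSum R U :=
    ⟨hSI, fun t => by rw [hrk t]; exact hdeg, hsup⟩
  have hγ' : IsReflection m δ (ρ γ) := by
    obtain ⟨a, s, h⟩ := hγ
    exact ⟨d, a, s, h⟩
  have hrefl : HasReflections R U := by
    obtain ⟨a, s, ha, hs, hr⟩ := reflects (Ω := Ω) hm hδ hc hγ'
    intro t
    refine ⟨γ, ⟨2 * m, by positivity, ?_⟩, fun t => s * (zt Ω z0 t) ^ a, ?_, ?_, ?_, ?_⟩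
    · have h1 : ∀ x ∈ (⨆ t, U t), (R γ ^ (2 * m)) x = x := by
        intro x hx
        refine Submodule.iSup_induction U (motive := fun x => (R γ ^ (2 * m)) x = x) hx
          (fun t x hx => ?_) (map_zero _) (fun x y hx hy => ?_)
        · obtain ⟨d, φ, hd, hφ, h2⟩ := hr _ (zt_prim hz t)
          have h3 := refl_pow hd hφ h2 (2 * m) x hx
          have h4 : (s * zt Ω z0 t ^ a) ^ (2 * m) = 1 := by
            have h5 : s ^ 2 = 1 := by rcases hs with rfl | rfl <;> norm_num
            rw [mul_pow, pow_mul, h5, one_pow, one_mul, ← pow_mul,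
              show a * (2 * m) = m * (a * 2) by ring, pow_mul, (zt_prim hz t).pow_eq_one, one_pow]
          rw [h4, sub_self, zero_mul, zero_smul, add_zero, one_pow, one_smul, map_pow] at h3
          exact h3
        · rw [map_add, hx, hy]
      rw [hsup] at h1
      exact LinearMap.ext fun x => h1 x trivial
    · intro j
      obtain ⟨d, φ, hd, hφ, h2⟩ := hr _ (zt_prim hz j)
      exact ⟨1, d, φ, hd, hφ, h2⟩
    · exact (root_ne hm (zt_prim hz t) ha hs).1
    · exact (root_ne hm (zt_prim hz t) ha hs).2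
    · intro j hj h
      apply hj
      have hs0 : s ≠ 0 := by rcases hs with rfl | rfl <;> norm_num
      exact zt_pow_inj hz ha (mul_left_cancel₀ hs0 h)
  have hsepU : ∀ (t t' : (ZMod m)ˣ) (ψ : Γ → Ω), Tw R ψ (U t) (U t') → t = t' := by
    intro i j ψ h
    by_contra hij
    obtain ⟨γ, -, ε, hr, hε1, -, hε⟩ := hrefl i
    exact sep (hE.1 i) (hE.1 j) (hE.2.1 i) (hr i) (hr j) hε1 (hε j (Ne.symm hij)) ψ h
  have hFr : HasFrobenii R U := by
    refine hasFrobenii F (fun t => hst t F) hsup (fun t => ?_) (fun t => ?_)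
    · rw [hcp]
      exact hsep.map
    · -- two different roots
      obtain ⟨r, b, al, hb, hal, halr⟩ := exists_simple_basis_on (R F) (U t) (hst t F) (by
        rw [hcp]
        exact hsep.map)
      have h1 : r = Q.natDegree := by
        rw [← hrk t, finrank_eq_card_basis b, Fintype.card_fin]
      have h2 : al ⟨0, by omega⟩ ≠ al ⟨1, by omega⟩ := by
        intro h
        have := hal h
        simp at this
      exact ⟨_, _, halr _, halr _, hrts t _ _ (halr _) (halr _) h2⟩
  have hdual : ∀ t, Du R (bcc χ Ω) (U t) (U (-t)) := by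
    intro t
    refine ⟨⊤, inferInstance, bcb Ω ω, ?_, fun g _ u _ v _ => hinv g u v⟩
    by_contra hcon
    push Not at hcon
    obtain ⟨u, hu, hu0⟩ := Submodule.exists_mem_ne_zero_of_ne_bot (hSI t).1
    apply hu0
    refine eq_zero_of_orth hz hδ hiso hl1 hu fun v hv => ?_
    rw [hninv] at hv
    exact hcon u hu v hv
  -- no Weil families
  have hχF : (N : Ω) ≠ 0 := by
    have h1 : bcc χ Ω F = (N : Ω) := by
      rw [bcc_apply, hF.multiplier, map_natCast]
    rw [← h1]
    exact χne F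
  have hNE : (N : E) ≠ 0 := by
    intro h
    apply hχF
    have h1 := congrArg ι0 h
    rwa [map_natCast, map_zero] at h1
  have hno : ∀ (P : Type) [Fintype P] [Nonempty P] (L : P → Submodule Ω (Ω ⊗[k] V)),
      ¬Pool.Agent.Y126.Notions.IsWeilFamily R (bcc χ Ω) L := by
    intro P _ _ L
    refine noWeil hpr hE hst hdual F (fun M hM c P _ _ i h => ?_) P L
    obtain ⟨c', hc'⟩ := sum_const hζ hval σ hσ Q.natDegree M hM
      (Units.mk0 ((N : E) ^ (M * c)) (pow_ne_zero _ hNE))
      (fun t => by rw [Units.val_mk0, map_pow, map_natCast]) i (by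
        apply ι0.injective
        rw [map_prod, Units.val_mk0, map_pow, map_natCast]
        have h1 : ∀ p, LinearMap.det (M := U (i p)) ((R F).restrict (hst (i p) F)) =
            ι0 ((-1) ^ Q.natDegree * σ (i p) (Q.coeff 0)) := by
          intro p
          rw [det_of_charpoly (hst (i p) F), hcp, hrk, coeff_map, map_mul, map_pow, map_neg, map_one]
          rfl
        have h2 : bcc χ Ω F = (N : Ω) := by
          rw [bcc_apply, hF.multiplier, map_natCast]
        rw [Finset.prod_congr rfl fun p _ => by rw [h1 p], h2] at h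
        rw [← h]
        exact Finset.prod_congr rfl fun p _ => by rw [map_pow])
    exact exists_neg hn c' i hc'
  refine ⟨z0, hz, hSI, fun t t' h => hsepU t t' _ h, hdual, fun j φ hφ => ?_⟩
  exact Pool.Agent.Y126.Toric.pt_of_noWeil hno (refl_det _ hl1 hinv hpr hE hrefl hFr φ hφ)

end main

end

end Pool.Agent.Helper8K9.CY
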