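import Mathlib
import Pool.Agent.Helper8K9.CY.Main

/-!
# Conclusions over the ground field
-/

set_option autoImplicit false
set_option linter.unusedSectionVars false

namespace Pool.Agent.Helper8K9.CY

open Module TensorProduct Polynomial
open Pool.Agent.H204R3.SP Pool.Agent.H204R3.GP Pool.Agent.W522.U Pool.Agent.TH118.CR
open Pool.Agent.TH118.WC
open Pool.Agent.Helper8K9.CR

noncomputable section

section odd

variable {k V : Type} [Field k] [CharZero k] [AddCommGroup V] [Module k V]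
  {Ω : Type} [Field Ω] [CharZero Ω] [Algebra k Ω]
  {ν : Type} [Fintype ν] [DecidableEq ν] (b : Basis ν k V)
  {Γ : Type} [Group Γ] {ρ : Representation k Γ V}

/-- Equivariance of the extension of a form. -/
theorem bcm_equiv {n : ℕ} (φ : MultilinearMap k (fun _ : Fin n => V) k) (s : Γ) (c : k)
    (h : ∀ v, φ (fun l => ρ s (v l)) = c * φ v) (v : Fin n → Ω ⊗[k] V) :
    bcm (Ω := Ω) b φ (fun l => bcr ρ Ω s (v l)) = algebraMap k Ω c * bcm (Ω := Ω) b φ v := by
  have h1 : (bcm (Ω := Ω) b φ).compLinearMap (fun _ => bcr ρ Ω s) =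
      (algebraMap k Ω c) • bcm (Ω := Ω) b φ := by
    refine Basis.ext_multilinear (fun _ => b.baseChange Ω) fun I => ?_
    change (bcm (Ω := Ω) b φ) (fun l => bcr ρ Ω s (b.baseChange Ω (I l))) =
      algebraMap k Ω c * (bcm (Ω := Ω) b φ) (fun l => b.baseChange Ω (I l))
    rw [bcm_basis]
    have h2 : ∀ l, bcr ρ Ω s (b.baseChange Ω (I l)) = (1 : Ω) ⊗ₜ[k] ρ s (b (I l)) := by
      intro l
      rw [Basis.baseChange_apply, bcr_tmul]
    simp only [h2]
    rw [bcm_one, h, map_mul]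
  exact congrArg (fun F : MultilinearMap Ω (fun _ : Fin n => Ω ⊗[k] V) Ω => F v) h1

end odd

variable {k V : Type} [Field k] [CharZero k] [AddCommGroup V] [Module k V]
  [FiniteDimensional k V] {Γ : Type} [Group Γ] {ρ : Representation k Γ V} {χ : Γ →* k}
  {δ : End k V} {m : ℕ} [NeZero m] {ω : V →ₗ[k] V →ₗ[k] k}

/-- The conclusions: semisimplicity, the commuting operators, the forms in an even and in an odd
number of variables. -/
theorem conclusions (hm : 3 ≤ m) (hnd : ∀ u, (∀ v, ω v u = 0) → u = 0)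
    (hω : ∀ s u v, ω (ρ s u) (ρ s v) = χ s * ω u v)
    (hδ : aeval δ (cyclotomic m k) = 0) (hc : ∀ s, ρ s * δ = δ * ρ s)
    {Ω : Type} [Field Ω] [CharZero Ω] [Algebra k Ω] [IsAlgClosed Ω] {z0 : Ω}
    (hz : IsPrimitiveRoot z0 m)
    (hSI : ∀ t : (ZMod m)ˣ, SI (bcr ρ Ω) (Eg Ω δ (zt Ω z0 t)))
    (hsep : ∀ t t' : (ZMod m)ˣ, Tw (bcr ρ Ω) (fun _ => 1) (Eg Ω δ (zt Ω z0 t))
      (Eg Ω δ (zt Ω z0 t')) → t = t')
    (hdual : ∀ t : (ZMod m)ˣ, Du (bcr ρ Ω) (bcc χ Ω) (Eg Ω δ (zt Ω z0 t))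
      (Eg Ω δ (zt Ω z0 (-t))))
    (hall : ∀ (j : ℕ) (φ : MultilinearMap Ω (fun _ : Fin j × Fin 2 => Ω ⊗[k] V) Ω),
      IsTate (bcr ρ Ω) (bcc χ Ω) j φ → φ ∈ Submodule.span Ω (PT (bcr ρ Ω) (bcc χ Ω) j)) :
    FiniteIndexSemisimple ρ ∧
    (∀ Δ : Subgroup Γ, Δ.FiniteIndex → ∀ A : End k V, (∀ s ∈ Δ, A * ρ s = ρ s * A) →
      A ∈ Algebra.adjoin k {δ}) ∧
    (∀ (j : ℕ) (φ : MultilinearMap k (fun _ : Fin j × Fin 2 => V) k) (Δ : Subgroup Γ),
      Δ.FiniteIndex → (∀ s ∈ Δ, ∀ v, φ (fun l => ρ s (v l)) = χ s ^ j * φ v) →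
      φ ∈ Submodule.span k (GraphProducts ω δ j)) ∧
    (∀ (j : ℕ) (φ : MultilinearMap k (fun _ : Fin j => V) k) (ψ : Γ → k) (Δ : Subgroup Γ),
      Odd j → Δ.FiniteIndex → (∀ s ∈ Δ, ψ s ^ 2 = χ s) →
      (∀ s ∈ Δ, ∀ v, φ (fun l => ρ s (v l)) = ψ s ^ j * φ v) → φ = 0) := by
  classical
  let U : (ZMod m)ˣ → Submodule Ω (Ω ⊗[k] V) := fun t => Eg Ω δ (zt Ω z0 t)
  have hst : ∀ t, ∀ g : Γ, ∀ u ∈ U t, bcr ρ Ω g u ∈ U t := fun t g => Eg_stable hc _ g
  have hsup : ⨆ t, U t = ⊤ := iSup_Eg δ hz hδ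
  have hcomm : ∀ Δ : Subgroup Γ, Δ.FiniteIndex → ∀ A : End k V, (∀ s ∈ Δ, A * ρ s = ρ s * A) →
      A ∈ Algebra.adjoin k {δ} := by
    intro Δ hΔ A hA
    have h1 : ∀ s ∈ Δ, ∀ x, A.baseChange Ω (bcr ρ Ω s x) = bcr ρ Ω s (A.baseChange Ω x) := by
      intro s hs x
      change (A.baseChange Ω ∘ₗ (ρ s).baseChange Ω) x = ((ρ s).baseChange Ω ∘ₗ A.baseChange Ω) x
      rw [← LinearMap.baseChange_comp, ← LinearMap.baseChange_comp]
      congr 2
      exact hA s hs
    choose c hc' using fun t => comm_scalar_of_sep (E := U) hst hSI hsup hsep hΔ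
      (A.baseChange Ω) h1 t
    exact mem_adjoin hz hδ hc'
  refine ⟨semisimple_of_proj (hasProj_of_SI hst hSI hsup), hcomm, ?_, ?_⟩
  · intro j φ Δ hΔ hφ
    have h1 := tate_descent_any (Ω := Ω) (Module.finBasis k V) ρ χ (hall j) φ ⟨Δ, hΔ, hφ⟩
    refine (Submodule.span_le.2 ?_) h1
    rintro _ ⟨σ, B, hB, rfl⟩
    let S : Set (V →ₗ[k] V →ₗ[k] k) := Set.range fun a : ℕ => ω.comp (δ ^ a)
    have h2 : ∀ l, B l ∈ Submodule.span k S := by
      intro l
      obtain ⟨Δ', hΔ', h'⟩ := hB l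
      obtain ⟨A, hA, hBA⟩ := tate2_op hnd hω h'
      have h3 := hcomm Δ' hΔ' A hA
      have h4 : B l = ω.comp A := by
        ext u v
        exact hBA u v
      rw [h4]
      rw [Algebra.adjoin_singleton_eq_range_aeval] at h3
      obtain ⟨p, rfl⟩ := h3
      have h5 : ω.comp (aeval δ p) = ∑ i ∈ Finset.range (p.natDegree + 1),
          p.coeff i • ω.comp (δ ^ i) := by
        ext u v
        simp only [LinearMap.comp_apply, aeval_eq_sum_range, LinearMap.sum_apply,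
          LinearMap.smul_apply, map_sum, map_smul]
      change ω.comp (aeval δ p) ∈ _
      rw [h5]
      exact Submodule.sum_mem _ fun i _ => Submodule.smul_mem _ _ (Submodule.subset_span ⟨i, rfl⟩)
    refine (Submodule.span_mono ?_) (mmG_mem_span σ S B h2)
    rintro _ ⟨B', hB', rfl⟩
    choose a ha using hB'
    refine ⟨σ, a, fun v => ?_⟩
    rw [mmG_apply]
    refine Finset.prod_congr rfl fun l _ => ?_
    rw [← ha l]
    rfl
  · intro j φ ψ Δ hj hΔ hψ hφ
    let H : (ZMod m)ˣ → Bool := fun t => decide (2 * (t : ZMod m).val < m)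
    let p : Polynomial Ω := Lagrange.interpolate Finset.univ (fun t : (ZMod m)ˣ => zt Ω z0 t)
      (fun t => if H t then (2 : Ω) else 2⁻¹)
    have hg : ∀ t, ∀ u ∈ U t, aeval (δ.baseChange Ω) p u = (if H t then (2 : Ω) else 2⁻¹) • u := by
      intro t u hu
      rw [aeval_on p hu]
      congr 1
      exact Lagrange.eval_interpolate_at_node _ (fun s _ t _ h => zt_inj hz h) (Finset.mem_univ t)
    have hH : ∀ t, H (-t) = !(H t) := by
      intro t
      have hne : (t : ZMod m) ≠ 0 := by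
        have : Fact (1 < m) := ⟨by omega⟩
        exact Units.ne_zero t
      have h1 : ((-t : (ZMod m)ˣ) : ZMod m).val = m - (t : ZMod m).val := by
        rw [Units.val_neg, ZMod.neg_val, if_neg hne]
      have h2 : (t : ZMod m).val < m := ZMod.val_lt _
      have h3 : 2 * (t : ZMod m).val ≠ m := by
        intro h
        have h4 : (t : ZMod m).val.Coprime m := ZMod.val_coe_unit_coprime t
        have h5 : (t : ZMod m).val ∣ 1 := by
          have h6 : (t : ZMod m).val ∣ m := ⟨2, by omega⟩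
          have h7 := Nat.dvd_gcd (dvd_refl (t : ZMod m).val) h6
          rwa [Nat.Coprime.gcd_eq_one h4] at h7
        have h8 : (t : ZMod m).val = 1 := Nat.dvd_one.1 h5
        omega
      change decide (2 * ((-t : (ZMod m)ˣ) : ZMod m).val < m) = !decide (2 * (t : ZMod m).val < m)
      rw [h1, ← decide_not, decide_eq_decide]
      omega
    have hψ' : ∀ s ∈ Δ, (algebraMap k Ω (ψ s)) ^ 2 = bcc χ Ω s := by
      intro s hs
      rw [← map_pow, hψ s hs, bcc_apply]
    have h0 : bcm (Ω := Ω) (Module.finBasis k V) φ = 0 := by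
      refine odd_vanish (E := U) (nu := fun t => -t) hSI hsup hsep hdual hg hH hall hj hΔ hψ'
        fun s hs v => ?_
      have h1 := bcm_equiv (Ω := Ω) (Module.finBasis k V) φ s (ψ s ^ j) (hφ s hs) v
      rwa [map_pow] at h1
    ext v
    have h1 := bcm_one (Ω := Ω) (Module.finBasis k V) φ v
    rw [h0, _root_.zero_apply] at h1
    exact (algebraMap k Ω).injective (by rw [← h1, _root_.zero_apply, map_zero])

end

end Pool.Agent.Helper8K9.CY
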