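import Mathlib
import Pool.Agent.Helper8K9.CY.Main

/-!
# The root of a reflection generates the space if the polynomial is irreducible over the completions
-/

set_option autoImplicit false
set_option linter.unusedSectionVars false

namespace Pool.Agent.Helper8K9.CY

open Module TensorProduct Polynomial
open Pool.Agent.H204R3.SP Pool.Agent.H204R3.GP Pool.Agent.W522.U Pool.Agent.TH118.CR
open Pool.Agent.Helper8K9.CR

noncomputable section

section semilinear

variable {k V : Type} [Field k] [AddCommGroup V] [Module k V]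
  {Ω : Type} [Field Ω] [Algebra k Ω]

/-- The semilinear extension of an automorphism of the field. -/
def tw (V : Type) [AddCommGroup V] [Module k V] (τ : Ω ≃ₐ[k] Ω) : Ω ⊗[k] V →ₗ[k] Ω ⊗[k] V :=
  LinearMap.rTensor V τ.toLinearMap

theorem tw_tmul (τ : Ω ≃ₐ[k] Ω) (a : Ω) (v : V) : tw V τ (a ⊗ₜ[k] v) = τ a ⊗ₜ[k] v := rfl

theorem tw_smul (τ : Ω ≃ₐ[k] Ω) (c : Ω) (x : Ω ⊗[k] V) : tw V τ (c • x) = τ c • tw V τ x := by
  induction x with
  | zero => simp only [smul_zero, map_zero]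
  | add x y hx hy => rw [smul_add, map_add, hx, hy, map_add, smul_add]
  | tmul a v => rw [smul_tmul', tw_tmul, tw_tmul, smul_tmul', smul_eq_mul, smul_eq_mul, map_mul]

theorem tw_baseChange (τ : Ω ≃ₐ[k] Ω) (f : End k V) (x : Ω ⊗[k] V) :
    tw V τ (f.baseChange Ω x) = f.baseChange Ω (tw V τ x) := by
  induction x with
  | zero => simp only [map_zero]
  | add x y hx hy => simp only [map_add, hx, hy]
  | tmul a v => rw [LinearMap.baseChange_tmul, tw_tmul, tw_tmul, LinearMap.baseChange_tmul]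

theorem tw_symm (τ : Ω ≃ₐ[k] Ω) (x : Ω ⊗[k] V) : tw V τ.symm (tw V τ x) = x := by
  induction x with
  | zero => simp only [map_zero]
  | add x y hx hy => simp only [map_add, hx, hy]
  | tmul a v => rw [tw_tmul, tw_tmul, AlgEquiv.symm_apply_apply]

end semilinear

section irr

variable {k : Type} [Field k] {Ω : Type} [Field Ω] [Algebra k Ω] [Normal k Ω]

/-- The roots of an irreducible polynomial are conjugate. -/
theorem exists_aut {z : Ω} {P : Polynomial (IntermediateField.adjoin k {z})} (hP : Irreducible P)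
    {a b : Ω} (ha : aeval a P = 0) (hb : aeval b P = 0) :
    ∃ τ : Ω ≃ₐ[k] Ω, τ z = z ∧ τ a = b := by
  have h1 := minpoly.eq_of_irreducible hP ha
  have h2 := minpoly.eq_of_irreducible hP hb
  have h3 : IsConjRoot (IntermediateField.adjoin k {z}) a b := h1.symm.trans h2
  have hn : Normal (IntermediateField.adjoin k {z}) Ω :=
    Normal.tower_top_of_normal k (IntermediateField.adjoin k {z}) Ω
  obtain ⟨σ, hσ⟩ := h3.exists_algEquiv
  refine ⟨σ.symm.restrictScalars k, ?_, ?_⟩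
  · have h4 := σ.symm.commutes ⟨z, IntermediateField.mem_adjoin_simple_self k z⟩
    exact h4
  · change σ.symm a = b
    rw [← hσ]
    exact σ.symm_apply_apply b

end irr

section gen

variable {k V : Type} [Field k] [CharZero k] [AddCommGroup V] [Module k V]
  [FiniteDimensional k V] {Ω : Type} [Field Ω] [CharZero Ω] [Algebra k Ω] [IsAlgClosed Ω]
  {Γ : Type} [Group Γ] {ρ : Representation k Γ V} {χ : Γ →* k} {δ : End k V} {m : ℕ} [NeZero m]

/-- One eigenspace. -/
theorem Eg_le_of_irr (hδ : aeval δ (cyclotomic m k) = 0) (hc : ∀ s, ρ s * δ = δ * ρ s)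
    {F : Γ} {d : V} (hli : LinearIndependent k (fun i : Fin (Nat.totient m) => (δ ^ (i : ℕ)) d))
    {z : Ω} (hz : IsPrimitiveRoot z m) (hst : ∀ u ∈ Eg Ω δ z, bcr ρ Ω F u ∈ Eg Ω δ z)
    (hsep : (charpolyOn (bcr ρ Ω F) (Eg Ω δ z) hst).Separable)
    (hconj : ∀ a b, (charpolyOn (bcr ρ Ω F) (Eg Ω δ z) hst).IsRoot a →
      (charpolyOn (bcr ρ Ω F) (Eg Ω δ z) hst).IsRoot b → ∃ τ : Ω ≃ₐ[k] Ω, τ z = z ∧ τ a = b)
    {W : Submodule k V} (hd : d ∈ W) (hWδ : ∀ v ∈ W, δ v ∈ W) (hWF : ∀ v ∈ W, ρ F v ∈ W) :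
    Eg Ω δ z ≤ Submodule.span Ω ((fun v => (1 : Ω) ⊗ₜ[k] v) '' (W : Set V)) := by
  classical
  set WΩ : Submodule Ω (Ω ⊗[k] V) := Submodule.span Ω ((fun v => (1 : Ω) ⊗ₜ[k] v) '' (W : Set V))
    with hWΩ
  have hstab : ∀ f : End k V, (∀ v ∈ W, f v ∈ W) → ∀ x ∈ WΩ, f.baseChange Ω x ∈ WΩ := by
    intro f hf x hx
    induction hx using Submodule.span_induction with
    | mem x hx =>
      obtain ⟨v, hv, rfl⟩ := hx
      exact Submodule.subset_span ⟨f v, hf v hv, rfl⟩
    | zero => rw [map_zero]; exact Submodule.zero_mem _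
    | add x y _ _ hx hy => rw [map_add]; exact Submodule.add_mem _ hx hy
    | smul c x _ hx => rw [map_smul]; exact Submodule.smul_mem _ _ hx
  have htw : ∀ (τ : Ω ≃ₐ[k] Ω), ∀ x ∈ WΩ, tw V τ x ∈ WΩ := by
    intro τ x hx
    induction hx using Submodule.span_induction with
    | mem x hx =>
      obtain ⟨v, hv, rfl⟩ := hx
      refine Submodule.subset_span ⟨v, hv, ?_⟩
      change _ = tw V τ ((1 : Ω) ⊗ₜ[k] v)
      rw [tw_tmul, map_one]
    | zero => rw [map_zero]; exact Submodule.zero_mem _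
    | add x y _ _ hx hy => rw [map_add]; exact Submodule.add_mem _ hx hy
    | smul c x _ hx => rw [tw_smul]; exact Submodule.smul_mem _ _ hx
  -- the component of the root
  have hdz : rt Ω m δ d z ∈ WΩ :=
    aeval_mem (hstab δ hWδ) (ez Ω m z) _ (Submodule.subset_span ⟨d, hd, rfl⟩)
  have hdz' : rt Ω m δ d z ∈ Eg Ω δ z := ez_mem hδ hz _
  have hdz0 : rt Ω m δ d z ≠ 0 := dz_ne hz hli
  obtain ⟨r, b, al, hb, hal, halr⟩ := exists_simple_basis_on (bcr ρ Ω F) (Eg Ω δ z) hst hsep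
  let f : End Ω (Eg Ω δ z) := (bcr ρ Ω F).restrict hst
  have hbf : ∀ i, f (b i) = al i • b i := fun i => Subtype.ext (hb i)
  let W' : Submodule Ω (Eg Ω δ z) := WΩ.comap (Eg Ω δ z).subtype
  have hW' : ∀ u ∈ W', f u ∈ W' := by
    intro u hu
    exact hstab (ρ F) hWF u hu
  have hne : ∀ x : Eg Ω δ z, x ≠ 0 → ∃ i, b.repr x i ≠ 0 := by
    intro x hx
    by_contra hcon
    push Not at hcon
    apply hx
    rw [← b.sum_repr x]
    exact Finset.sum_eq_zero fun i _ => by rw [hcon i, zero_smul]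
  obtain ⟨i, hi⟩ := hne ⟨_, hdz'⟩ (fun h => hdz0 (congrArg Subtype.val h))
  have hbi : b i ∈ W' := basis_mem b hbf hal hW' (x := (⟨_, hdz'⟩ : Eg Ω δ z)) hdz hi
  have hall : ∀ j, b j ∈ W' := by
    intro j
    obtain ⟨τ, hτz, hτ⟩ := hconj (al i) (al j) (halr i) (halr j)
    have h1 : tw V τ (b i : Ω ⊗[k] V) ∈ Eg Ω δ z := by
      rw [mem_Eg, ← tw_baseChange, (mem_Eg Ω δ).1 (b i).2, tw_smul, hτz]
    have h2 : tw V τ (b i : Ω ⊗[k] V) ≠ 0 := by
      intro h
      have h3 := tw_symm τ (b i : Ω ⊗[k] V)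
      rw [h, map_zero] at h3
      exact b.ne_zero i (Subtype.ext h3.symm)
    let x : Eg Ω δ z := ⟨_, h1⟩
    have hx0 : x ≠ 0 := fun h => h2 (congrArg Subtype.val h)
    have hx : f x = al j • x := by
      apply Subtype.ext
      change (ρ F).baseChange Ω (tw V τ (b i : Ω ⊗[k] V)) = al j • tw V τ (b i : Ω ⊗[k] V)
      rw [← tw_baseChange, ← hτ, ← tw_smul]
      exact congrArg (tw V τ) (hb i)
    have hxW : x ∈ W' := htw τ _ hbi
    obtain ⟨l, hl⟩ := hne x hx0
    have h3 : f x = ∑ i, (b.repr x i * al i) • b i := by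
      conv_lhs => rw [← b.sum_repr x, map_sum]
      refine Finset.sum_congr rfl fun i _ => ?_
      rw [map_smul, hbf, smul_smul]
    have h4 : b.repr x l * al l = al j * b.repr x l := by
      have h5 := congrArg (fun y => b.repr y l) (h3.symm.trans hx)
      simp only [map_smul, Finsupp.smul_apply, smul_eq_mul] at h5
      rw [← h5, b.repr_sum_self]
    have h5 : al l = al j := by
      have h6 : b.repr x l * (al l - al j) = 0 := by
        rw [mul_sub, h4, mul_comm, sub_self]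
      exact sub_eq_zero.1 ((mul_eq_zero.1 h6).resolve_left hl)
    rw [← hal h5]
    exact basis_mem (K := Ω) (X := Eg Ω δ z) b hbf hal hW' (x := x) hxW hl
  intro u hu
  have h1 : (⟨u, hu⟩ : Eg Ω δ z) ∈ W' := by
    rw [← b.sum_repr ⟨u, hu⟩]
    exact Submodule.sum_mem _ fun j _ => Submodule.smul_mem _ _ (hall j)
  exact h1

/-- If the polynomial of `F` is irreducible over all completions, the space is generated by every
vector that generates a free module over `k(δ)`. -/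
theorem generated_of_irr [Normal k Ω] (hδ : aeval δ (cyclotomic m k) = 0)
    (hc : ∀ s, ρ s * δ = δ * ρ s) {F : Γ} {d : V}
    (hli : LinearIndependent k (fun i : Fin (Nat.totient m) => (δ ^ (i : ℕ)) d))
    {E : Type} [Field E] [CharZero E] [IsCyclotomicExtension {m} ℚ E] {ζ : E}
    (hζ : IsPrimitiveRoot ζ m) {Q : Polynomial E} {N : ℕ}
    (hF : HasPolynomial Ω ρ χ δ ζ Q N F) (hsep : Q.Separable)
    (hirr : ∀ ι : E →+* Ω, ∃ P : Polynomial (IntermediateField.adjoin k {ι ζ}),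
      Irreducible P ∧ P.map (algebraMap _ Ω) = Q.map ι)
    {W : Submodule k V} (hd : d ∈ W) (hWδ : ∀ v ∈ W, δ v ∈ W) (hWF : ∀ v ∈ W, ρ F v ∈ W) :
    W = ⊤ := by
  classical
  have halgE : Algebra.IsAlgebraic ℚ E :=
    have := IsCyclotomicExtension.finiteDimensional {m} ℚ E
    inferInstance
  have hemb : Nonempty (E →+* Ω) :=
    ⟨(IsAlgClosed.lift : E →ₐ[ℚ] Ω).toRingHom⟩
  obtain ⟨ι0⟩ := hemb
  set z0 : Ω := ι0 ζ with hz0
  have hz : IsPrimitiveRoot z0 m := hζ.map_of_injective ι0.injective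
  choose σ hσ using fun t : (ZMod m)ˣ => exists_conj hζ t
  let ι : (ZMod m)ˣ → E →+* Ω := fun t => ι0.comp ((σ t : E ≃+* E) : E →+* E)
  have hι : ∀ t, ι t ζ = zt Ω z0 t := by
    intro t
    change ι0 (σ t ζ) = _
    rw [hσ, map_pow]
    rfl
  have hst : ∀ t : (ZMod m)ˣ, ∀ g : Γ, ∀ u ∈ Eg Ω δ (zt Ω z0 t), bcr ρ Ω g u ∈ Eg Ω δ (zt Ω z0 t) :=
    fun t g => Eg_stable hc _ g
  have hcp : ∀ t, charpolyOn (bcr ρ Ω F) (Eg Ω δ (zt Ω z0 t)) (hst t F) = Q.map (ι t) := by
    intro t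
    have h1 := hF.charpoly (ι t)
    rw [hι t] at h1
    exact h1 (hst t F)
  set WΩ : Submodule Ω (Ω ⊗[k] V) := Submodule.span Ω ((fun v => (1 : Ω) ⊗ₜ[k] v) '' (W : Set V))
    with hWΩ
  have htop : WΩ = ⊤ := by
    rw [eq_top_iff, ← iSup_Eg δ hz hδ]
    refine iSup_le fun t => ?_
    refine Eg_le_of_irr hδ hc hli (zt_prim hz t) (hst t F) ?_ ?_ hd hWδ hWF
    · rw [hcp]
      exact hsep.map
    · intro a b ha hb
      rw [hcp] at ha hb
      obtain ⟨P, hP, hPQ⟩ := hirr (ι t)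
      have h1 : ∀ x, (Q.map (ι t)).IsRoot x → aeval x P = 0 := by
        intro x hx
        rw [← hPQ, IsRoot.def, eval_map] at hx
        exact hx
      obtain ⟨τ, h2, h3⟩ := exists_aut hP (h1 a ha) (h1 b hb)
      rw [hι] at h2
      exact ⟨τ, h2, h3⟩
  obtain ⟨i, hi⟩ := exists_coord (k := k) (Ω := Ω)
  rw [eq_top_iff]
  intro v _
  have h1 : ((1 : Ω) ⊗ₜ[k] v) ∈ WΩ := by rw [htop]; trivial
  have h2 := coo_span (Basis.ofVectorSpace k Ω) i h1
  rw [coo_tmul] at h2
  have h3 := W.smul_mem ((Basis.ofVectorSpace k Ω).coord i 1)⁻¹ h2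
  rwa [smul_smul, inv_mul_cancel₀ hi, one_smul] at h3

end gen

end

end Pool.Agent.Helper8K9.CY
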