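import Mathlib
import Pool.Agent.Helper8K9.CR.Sig

/-!
# The signatures of cyclic coverings of projective spaces
-/

set_option autoImplicit false

namespace Pool.Agent.Helper8K9.CY

open Finset Pool.Agent.H916R2 Pool.Agent.Helper8K9.CR

noncomputable section

section count

variable (M : ℕ) [NeZero M]

/-- The number of the vectors of nonzero residues with sum `x`. -/
def cnt (j : ℕ) (x : ZMod M) : ℤ :=
  ∑ b : Fin j → ZMod M, if (∀ i, b i ≠ 0) ∧ ∑ i, b i = x then 1 else 0

/-- The sum of the entries of these vectors. -/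
def wt (j : ℕ) (x : ZMod M) : ℤ :=
  ∑ b : Fin j → ZMod M, if (∀ i, b i ≠ 0) ∧ ∑ i, b i = x then ∑ i, ((b i).val : ℤ) else 0

omit [NeZero M] in
theorem cons_iff {j : ℕ} (a x : ZMod M) (b : Fin j → ZMod M) :
    ((∀ i, (Fin.cons a b : Fin (j + 1) → ZMod M) i ≠ 0) ∧
      ∑ i, (Fin.cons a b : Fin (j + 1) → ZMod M) i = x) ↔
    a ≠ 0 ∧ ((∀ i, b i ≠ 0) ∧ ∑ i, b i = x - a) := by
  rw [Fin.forall_fin_succ, Fin.sum_univ_succ]
  simp only [Fin.cons_zero, Fin.cons_succ]
  rw [and_assoc, eq_sub_iff_add_eq']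

theorem sum_cons {j : ℕ} {A : Type} [AddCommMonoid A] (f : (Fin (j + 1) → ZMod M) → A) :
    ∑ b, f b = ∑ a : ZMod M, ∑ b : Fin j → ZMod M, f (Fin.cons a b) := by
  rw [← Fintype.sum_prod_type']
  symm
  exact Fintype.sum_equiv (Fin.consEquiv fun _ => ZMod M) _ _ fun p => rfl

theorem cnt_succ (j : ℕ) (x : ZMod M) :
    cnt M (j + 1) x = ∑ a : ZMod M, if a ≠ 0 then cnt M j (x - a) else 0 := by
  unfold cnt
  rw [sum_cons]
  refine Finset.sum_congr rfl fun a _ => ?_
  by_cases ha : a = 0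
  · rw [if_neg (not_not.2 ha)]
    refine Finset.sum_eq_zero fun b _ => ?_
    rw [if_neg]
    rw [cons_iff]
    exact fun h => h.1 ha
  · rw [if_pos ha]
    refine Finset.sum_congr rfl fun b _ => ?_
    congr 1
    rw [cons_iff]
    simp only [ha, ne_eq, not_false_eq_true, true_and]

theorem wt_succ (j : ℕ) (x : ZMod M) :
    wt M (j + 1) x = ∑ a : ZMod M,
      if a ≠ 0 then (a.val : ℤ) * cnt M j (x - a) + wt M j (x - a) else 0 := by
  unfold wt cnt
  rw [sum_cons]
  refine Finset.sum_congr rfl fun a _ => ?_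
  by_cases ha : a = 0
  · rw [if_neg (not_not.2 ha)]
    refine Finset.sum_eq_zero fun b _ => ?_
    rw [if_neg]
    rw [cons_iff]
    exact fun h => h.1 ha
  · rw [if_pos ha, Finset.mul_sum, ← Finset.sum_add_distrib]
    refine Finset.sum_congr rfl fun b _ => ?_
    by_cases hb : (∀ i, b i ≠ 0) ∧ ∑ i, b i = x - a
    · rw [if_pos ((cons_iff M a x b).2 ⟨ha, hb⟩), if_pos hb, if_pos hb, Fin.sum_univ_succ]
      simp only [Fin.cons_zero, Fin.cons_succ, mul_one]
    · rw [if_neg (fun h => hb ((cons_iff M a x b).1 h).2), if_neg hb, if_neg hb, mul_zero,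
        add_zero]

theorem sum_ne_zero (f : ZMod M → ℤ) :
    ∑ a : ZMod M, (if a ≠ 0 then f a else 0) = ∑ a, f a - f 0 := by
  rw [← Finset.add_sum_erase _ _ (Finset.mem_univ (0 : ZMod M)), if_neg (not_not.2 rfl), zero_add,
    ← Finset.add_sum_erase _ f (Finset.mem_univ (0 : ZMod M)), add_sub_cancel_left]
  exact Finset.sum_congr rfl fun a ha => if_pos (Finset.ne_of_mem_erase ha)

theorem sum_sub_left (f : ZMod M → ℤ) (x : ZMod M) : ∑ a : ZMod M, f (x - a) = ∑ a, f a :=
  Fintype.sum_equiv (Equiv.subLeft x) _ _ fun _ => rfl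

/-- The number of vectors. -/
theorem cnt_eq (j : ℕ) (x : ZMod M) :
    (M : ℤ) * cnt M j x = (M - 1) ^ j - (-1) ^ j + M * (-1) ^ j * (if x = 0 then 1 else 0) := by
  induction j generalizing x with
  | zero =>
    unfold cnt
    rw [Fintype.sum_unique]
    simp only [IsEmpty.forall_iff, Finset.univ_eq_empty, Finset.sum_empty, true_and, pow_zero,
      sub_self, zero_add, mul_one]
    congr 2
    exact propext eq_comm
  | succ j ih =>
    rw [cnt_succ, sum_ne_zero, sum_sub_left, mul_sub, Finset.mul_sum,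
      Finset.sum_congr rfl fun a _ => ih a, sub_zero, ih]
    rw [Finset.sum_add_distrib, Finset.sum_const, Finset.card_univ, ZMod.card, ← Finset.mul_sum,
      Finset.sum_ite_eq' Finset.univ (0 : ZMod M), if_pos (Finset.mem_univ _), nsmul_eq_mul,
      pow_succ, pow_succ]
    ring

/-- The sum of all residues. -/
theorem sum_val : 2 * ∑ a : ZMod M, (a.val : ℤ) = M * (M - 1) := by
  obtain ⟨M', rfl⟩ : ∃ M', M = M' + 1 := Nat.exists_eq_succ_of_ne_zero (NeZero.ne M)
  have h1 : ∑ a : ZMod (M' + 1), (a.val : ℤ) = ∑ i ∈ Finset.range (M' + 1), (i : ℤ) := by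
    rw [← Fin.sum_univ_eq_sum_range]
    rfl
  have h2 : (∑ i ∈ Finset.range (M' + 1), i) * 2 = (M' + 1) * M' := by
    rw [Finset.sum_range_id_mul_two, Nat.add_sub_cancel]
  rw [h1]
  have h3 : (∑ i ∈ Finset.range (M' + 1), (i : ℤ)) * 2 = ((M' + 1 : ℕ) : ℤ) * M' := by
    have h4 : (((∑ i ∈ Finset.range (M' + 1), i) * 2 : ℕ) : ℤ) = (((M' + 1) * M' : ℕ) : ℤ) := by
      rw [h2]
    rw [Nat.cast_mul, Nat.cast_mul, Nat.cast_sum] at h4
    exact h4
  push_cast at h3 ⊢
  linarith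

/-- The sum of the entries. -/
theorem wt_eq (j : ℕ) (x : ZMod M) :
    2 * wt M j x = j * ((M - 1) ^ j + (-1) ^ j * (M - 1) - 2 * (-1) ^ j * x.val) := by
  induction j generalizing x with
  | zero =>
    unfold wt
    rw [Fintype.sum_unique]
    simp
  | succ j ih =>
    have hM : (M : ℤ) ≠ 0 := by exact_mod_cast NeZero.ne M
    have h1 : wt M (j + 1) x = ∑ a : ZMod M, (a.val : ℤ) * cnt M j (x - a) +
        (∑ a : ZMod M, wt M j a - wt M j x) := by
      rw [wt_succ, sum_ne_zero, Finset.sum_add_distrib, sum_sub_left M (fun a => wt M j a) x,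
        sub_zero, ZMod.val_zero]
      push_cast
      ring
    -- the first sum
    have h2 : 2 * ∑ a : ZMod M, (a.val : ℤ) * cnt M j (x - a) =
        ((M - 1) ^ j - (-1) ^ j) * (M - 1) + 2 * (-1) ^ j * x.val := by
      apply mul_left_cancel₀ hM
      have h3 : ∀ a : ZMod M, (M : ℤ) * ((a.val : ℤ) * cnt M j (x - a)) =
          ((M - 1) ^ j - (-1) ^ j) * a.val + M * (-1) ^ j * (if a = x then (x.val : ℤ) else 0) := by
        intro a
        rw [show (M : ℤ) * ((a.val : ℤ) * cnt M j (x - a)) = a.val * (M * cnt M j (x - a)) by ring,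
          cnt_eq]
        by_cases h : a = x
        · subst h
          rw [if_pos (sub_self a), if_pos rfl]
          ring
        · rw [if_neg (fun h' => h (sub_eq_zero.1 h').symm), if_neg h]
          ring
      rw [mul_left_comm, Finset.mul_sum, Finset.sum_congr rfl fun a _ => h3 a,
        Finset.sum_add_distrib, ← Finset.mul_sum, ← Finset.mul_sum,
        Finset.sum_ite_eq' Finset.univ x, if_pos (Finset.mem_univ _)]
      have h4 := sum_val M
      linear_combination ((M - 1 : ℤ) ^ j - (-1) ^ j) * h4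
    -- the second sum
    have h3 : 2 * ∑ a : ZMod M, wt M j a = j * M * (M - 1) ^ j := by
      rw [Finset.mul_sum, Finset.sum_congr rfl fun a _ => ih a, ← Finset.mul_sum,
        Finset.sum_sub_distrib, Finset.sum_const, Finset.card_univ, ZMod.card, ← Finset.mul_sum,
        nsmul_eq_mul]
      have h4 := sum_val M
      linear_combination (-(j : ℤ) * (-1) ^ j) * h4
    rw [h1]
    have h4 := ih x
    push_cast
    rw [pow_succ, pow_succ]
    linear_combination h2 + h3 - h4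

end count

section sig

variable {m : ℕ} [NeZero m]

/-- The signature of the cyclic covering `y ^ m = f(x_0, …, x_n)`, `f` of degree `m e`: the sum of the
numbers `(∑ b_i + e t) / (m e) - 1` over the vectors of `n + 1` residues `b_i ≠ 0` modulo `m e` with
`∑ b_i + e t ≡ 0`, where `0 < t < m` and `0 < b_i < m e` are the representatives. -/
def covSig (n m e : ℕ) [NeZero m] [NeZero (m * e)] (t : (ZMod m)ˣ) : ℤ :=
  ∑ b : Fin (n + 1) → ZMod (m * e),
    if (∀ i, b i ≠ 0) ∧ ∑ i, b i + ((e * (t : ZMod m).val : ℕ) : ZMod (m * e)) = 0 then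
      (((∑ i, (b i).val + e * (t : ZMod m).val : ℕ) : ℤ) / ((m * e : ℕ) : ℤ) - 1) else 0

theorem covSig_eq (n e : ℕ) (hm : 2 ≤ m) (he : 1 ≤ e) [NeZero (m * e)] (t : (ZMod m)ˣ) :
    (2 * (m * e : ℕ) ^ 2 : ℤ) * covSig n m e t =
      2 * e * (((m * e : ℕ) - 1) ^ (n + 1) - (-1) ^ (n + 1) + (n + 1) * (m * e : ℕ) * (-1) ^ (n + 1)) *
        (t : ZMod m).val +
      ((m * e : ℕ) * (n + 1) * (((m * e : ℕ) - 1) ^ (n + 1) + (-1) ^ (n + 1) * ((m * e : ℕ) - 1) -
        2 * (-1) ^ (n + 1) * (m * e : ℕ)) -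
        2 * (m * e : ℕ) * (((m * e : ℕ) - 1) ^ (n + 1) - (-1) ^ (n + 1))) := by
  set M := m * e with hM
  set v := (t : ZMod m).val with hv
  have hv0 : 0 < v := by
    rw [Nat.pos_iff_ne_zero]
    intro h
    have h1 : (t : ZMod m) = 0 := (ZMod.val_eq_zero _).1 h
    have : Fact (1 < m) := ⟨hm⟩
    exact Units.ne_zero t h1
  have hvm : v < m := ZMod.val_lt _
  have hMz : (M : ℤ) ≠ 0 := by exact_mod_cast NeZero.ne M
  -- the residue
  set x : ZMod M := -((e * v : ℕ) : ZMod M) with hx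
  have hev : e * v < M := by
    rw [hM, mul_comm m e]
    exact Nat.mul_lt_mul_of_pos_left hvm he
  have hev0 : 0 < e * v := Nat.mul_pos he hv0
  have hy : ((e * v : ℕ) : ZMod M) ≠ 0 := by
    rw [Ne, ZMod.natCast_eq_zero_iff]
    intro h
    exact absurd (Nat.le_of_dvd hev0 h) (by omega)
  have hx0 : x ≠ 0 := neg_ne_zero.2 hy
  have hxv : (x.val : ℤ) = M - e * v := by
    have h1 : x.val = M - e * v := by
      rw [hx, ZMod.neg_val, if_neg hy, ZMod.val_natCast, Nat.mod_eq_of_lt hev]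
    rw [h1, Nat.cast_sub hev.le]
    push_cast
    ring
  -- the sum in terms of `cnt` and `wt`
  have h1 : (M : ℤ) * (covSig n m e t + cnt M (n + 1) x) =
      wt M (n + 1) x + e * v * cnt M (n + 1) x := by
    unfold covSig cnt wt
    rw [← Finset.sum_add_distrib, Finset.mul_sum, Finset.mul_sum, ← Finset.sum_add_distrib]
    refine Finset.sum_congr rfl fun b _ => ?_
    have h2 : (∑ i, b i + ((e * v : ℕ) : ZMod M) = 0) ↔ ∑ i, b i = x := by
      rw [hx, eq_neg_iff_add_eq_zero]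
    by_cases hb : (∀ i, b i ≠ 0) ∧ ∑ i, b i = x
    · rw [if_pos (show (∀ i, b i ≠ 0) ∧ ∑ i, b i + ((e * v : ℕ) : ZMod M) = 0 from
        ⟨hb.1, h2.2 hb.2⟩), if_pos hb, if_pos hb]
      have h3 : (M : ℤ) ∣ ((∑ i, (b i).val + e * v : ℕ) : ℤ) := by
        rw [Int.natCast_dvd_natCast, ← ZMod.natCast_eq_zero_iff, Nat.cast_add, Nat.cast_sum]
        simp only [ZMod.natCast_zmod_val]
        exact h2.2 hb.2
      obtain ⟨q, hq⟩ := h3
      have h4 : (((∑ i, (b i).val + e * v : ℕ) : ℤ) / (M : ℤ)) = q := by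
        rw [hq, Int.mul_ediv_cancel_left _ hMz]
      rw [h4, sub_add_cancel, ← hq]
      push_cast
      ring
    · rw [if_neg (fun h => hb ⟨h.1, h2.1 h.2⟩), if_neg hb, if_neg hb]
      ring
  have h2 := cnt_eq M (n + 1) x
  have h3 := wt_eq M (n + 1) x
  rw [if_neg hx0, mul_zero, add_zero] at h2
  rw [hxv] at h3
  push_cast at h3
  linear_combination (2 * (M : ℤ)) * h1 + (M : ℤ) * h3 + (2 * (e * v : ℤ) - 2 * M) * h2

/-- A signature that is a nonconstant linear function is nondegenerate. -/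
theorem nondegenerate_of_linear {p k : ℕ} (hp : p.Prime) (hm : m = p ^ k) (hm2 : 2 ≤ m)
    {n : (ZMod m)ˣ → ℤ} {a c c' : ℤ} (hc : c ≠ 0)
    (h : ∀ t : (ZMod m)ˣ, a * n t = c * (t : ZMod m).val + c') : Nondegenerate n := by
  refine nondegenerate_of_char fun χ hχ h0 => ?_
  have hz := sum_units_zero (odd_ne_one hχ)
  have h1 : ∑ t : (ZMod m)ˣ, χ t * ((a * n t : ℤ) : ℂ) =
      c * ∑ t : (ZMod m)ˣ, χ t * ((t : ZMod m).val : ℂ) := by
    have h2 : ∀ t : (ZMod m)ˣ, χ t * ((a * n t : ℤ) : ℂ) =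
        c * (χ t * ((t : ZMod m).val : ℂ)) + c' * χ t := by
      intro t
      rw [h t]
      push_cast
      ring
    rw [Finset.sum_congr rfl fun t _ => h2 t, Finset.sum_add_distrib, ← Finset.mul_sum,
      ← Finset.mul_sum, hz, mul_zero, add_zero]
  have h2 : ∑ t : (ZMod m)ˣ, χ t * ((a * n t : ℤ) : ℂ) = a * ∑ t : (ZMod m)ˣ, χ t * (n t : ℂ) := by
    rw [Finset.mul_sum]
    refine Finset.sum_congr rfl fun t _ => ?_
    push_cast
    ring
  rw [h2, h0, mul_zero] at h1
  have h3 : ∑ t : (ZMod m)ˣ, χ t * ((t : ZMod m).val : ℂ) = 0 := by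
    rcases mul_eq_zero.1 h1.symm with h4 | h4
    · exact absurd (by exact_mod_cast h4) hc
    · exact h4
  apply SS_one_ne_zero hp hm hχ
  unfold SS
  have h4 : ∀ t : (ZMod m)ˣ, χ t * (saw ((t : ZMod m) * 1) : ℂ) =
      2 * (χ t * ((t : ZMod m).val : ℂ)) - m * χ t := by
    intro t
    have h5 : (t : ZMod m) ≠ 0 := by
      have : Fact (1 < m) := ⟨hm2⟩
      exact Units.ne_zero t
    rw [mul_one]
    unfold saw
    rw [if_neg h5]
    push_cast
    ring
  rw [Finset.sum_congr rfl fun t _ => h4 t, Finset.sum_sub_distrib, ← Finset.mul_sum,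
    ← Finset.mul_sum, hz, h3, mul_zero, mul_zero, sub_zero]

theorem pow_ge_mul (M : ℕ) (hM : 3 ≤ M) (j0 : ℕ) (hj0 : 1 ≤ j0) (h0 : j0 * M ≤ (M - 1) ^ j0)
    (j : ℕ) (hj : j0 ≤ j) : j * M ≤ (M - 1) ^ j := by
  induction j, hj using Nat.le_induction with
  | base => exact h0
  | succ j hj ih =>
    rw [pow_succ]
    obtain ⟨M', rfl⟩ : ∃ M', M = M' + 3 := ⟨M - 3, by omega⟩
    have h1 : M' + 3 - 1 = M' + 2 := by omega
    rw [h1] at ih ⊢
    have h2 : j + 1 ≤ j * (M' + 2) := by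
      have h3 : j * 2 ≤ j * (M' + 2) := Nat.mul_le_mul_left j (by omega)
      omega
    calc (j + 1) * (M' + 3) ≤ (j * (M' + 2)) * (M' + 3) := Nat.mul_le_mul_right _ h2
      _ = (j * (M' + 3)) * (M' + 2) := by ring
      _ ≤ (M' + 2) ^ j * (M' + 2) := Nat.mul_le_mul_right _ ih

/-- For prime powers `m` the signatures of cyclic coverings are nondegenerate, except for cubic
surfaces. -/
theorem covSig_nondegenerate {p k : ℕ} (hp : p.Prime) (hm : m = p ^ k) (hm3 : 3 ≤ m) {n e : ℕ}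
    (hn : 1 ≤ n) (he : 1 ≤ e) [NeZero (m * e)] (hne : ¬(n = 2 ∧ m * e = 3)) :
    Nondegenerate (covSig n m e) := by
  refine nondegenerate_of_linear hp hm (by omega) (mul_ne_zero (mul_ne_zero two_ne_zero
    (by exact_mod_cast (show e ≠ 0 by omega))) ?_)
    fun t => covSig_eq n e (by omega) he t
  have hM3 : 3 ≤ m * e := by nlinarith
  set M := m * e with hM
  obtain ⟨M', hM'⟩ : ∃ M', M = M' + 3 := ⟨M - 3, by omega⟩
  have hcast : ((M : ℕ) : ℤ) - 1 = ((M - 1 : ℕ) : ℤ) := by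
    rw [Nat.cast_sub (by omega)]
    norm_num
  rcases Nat.even_or_odd (n + 1) with hpar | hpar
  · rw [hpar.neg_one_pow]
    have h1 : (1 : ℤ) ≤ (M - 1 : ℤ) ^ (n + 1) := by
      rw [hcast]
      exact_mod_cast Nat.one_le_pow _ _ (by omega)
    have h2 : (0 : ℤ) < (n + 1) * M := by positivity
    intro h
    linarith
  · rw [hpar.neg_one_pow]
    have hn2 : 2 ≤ n := by
      rcases hpar with ⟨r, hr⟩
      omega
    have h1 : (n + 1) * M ≤ (M - 1) ^ (n + 1) := by
      by_cases hM4 : 4 ≤ M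
      · refine pow_ge_mul M hM3 3 (by norm_num) ?_ (n + 1) (by omega)
        obtain ⟨r, hr⟩ : ∃ r, M = r + 4 := ⟨M - 4, by omega⟩
        rw [hr]
        have h2 : r + 4 - 1 = r + 3 := by omega
        rw [h2]
        nlinarith [sq_nonneg r, Nat.zero_le (r ^ 3)]
      · have h3 : M = 3 := by omega
        refine pow_ge_mul M hM3 4 (by norm_num) ?_ (n + 1) ?_
        · rw [h3]
          norm_num
        · have h4 : n ≠ 2 := fun h => hne ⟨h, h3⟩
          omega
    have h2 : ((n : ℤ) + 1) * M ≤ (M - 1 : ℤ) ^ (n + 1) := by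
      rw [hcast]
      exact_mod_cast h1
    intro h
    linarith

end sig

end

end Pool.Agent.Helper8K9.CY
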